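import Pool.Agent.Lib.MP_49888f_co.CV.Cells

/-! Board CV, module Dens: a double lattice covering gives `CovLE`.

PROOF. Take a bijection `φ : ℕ ≃ (ℤ × ℤ) × Bool` (`(Denumerable.eqv _).symm`) and let `f n` be, for
`φ n = ((i,j), b)` and `λ = i e + j w`: `b = false`: `x ↦ x + λ` (`IsometryEquiv.addRight λ`);
`b = true`: `x ↦ (c + λ) - x` (`IsometryEquiv.subLeft (c + λ)`). `hcov` says that the images of `C` cover.
Density: fix `x1 ∈ C`. Let `r > 0`. The sum over `n` is, by `Equiv.tsum_eq` and `ENNReal.tsum_prod`/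
`tsum_bool`, the sum of two sums over `ℤ × ℤ`, `vol C * ∑' p, (S_b).indicator 1 p` with
`S_b = {p | copy (p,b) ⊆ ball 0 r}`. For `p ∈ S_false` the point `λ + x1` lies in the ball, so `cells` applies
with `x0 = x1`; for `p ∈ S_true` the point `c + λ - x1` lies in the ball, `cells` with `x0 = c - x1`.
Let `ρ` be the larger of the two constants `‖x0‖ + ‖e‖ + ‖w‖`. So
 `sum ≤ 2 * vol C / ofReal |cr e w| * volume (ball 0 (r + ρ))`.
`volume (ball 0 (r+ρ)) = ofReal ((r+ρ)^2 / r^2) * volume (ball 0 r)` (`Measure.addHaar_ball`,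
`EuclideanSpace.volume_ball`, finrank = 2). Given `ε > 0` and `R`, choose `r ≥ max R 1` so large that
`(2 vol C/|cr e w|) * ((r+ρ)^2/r^2) ≤ 2 vol C/|cr e w| + ε` (`(r+ρ)^2/r^2 → 1`; explicit:
`(1+ρ/r)^2 ≤ 1 + (2ρ+ρ^2)/r` for `r ≥ 1`, so `r ≥ θ (2ρ+ρ²)/ε` works). -/

set_option autoImplicit false

namespace Pool.Agent.MP49888f.CV

open MeasureTheory Set

theorem ball_ratio (r ρ : ℝ) (hr : 0 < r) (hρ : 0 ≤ ρ) :
    volume (Metric.ball (0 : E2) (r + ρ)) =
      ENNReal.ofReal ((r + ρ) ^ 2 / r ^ 2) * volume (Metric.ball (0 : E2) r) := by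
  have h1 : volume (Metric.ball (0 : E2) (r + ρ)) =
      ENNReal.ofReal ((r + ρ) ^ 2) * volume (Metric.ball (0 : E2) 1) := by
    have := Measure.addHaar_ball (volume : Measure E2) (0 : E2) (r := r + ρ) (by linarith)
    simpa using this
  have h2 : volume (Metric.ball (0 : E2) r) =
      ENNReal.ofReal (r ^ 2) * volume (Metric.ball (0 : E2) 1) := by
    have := Measure.addHaar_ball (volume : Measure E2) (0 : E2) (r := r) (by linarith)
    simpa using this
  rw [h1, h2, ← mul_assoc, ← ENNReal.ofReal_mul (by positivity)]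
  congr 2
  field_simp

theorem dens (C : Set E2) (hC : IsCompact C) (hne : C.Nonempty) (e w c : E2) (hd : cr e w ≠ 0)
    (hcov : ∀ x : E2, ∃ i j : ℤ, x - (i : ℝ) • e - (j : ℝ) • w ∈ C ∨
      c + (i : ℝ) • e + (j : ℝ) • w - x ∈ C) :
    CovLE C (2 * (volume C).toReal / |cr e w|) := by
  classical
  obtain ⟨x1, hx1⟩ := hne
  have hfin : volume C ≠ ⊤ := hC.measure_lt_top.ne
  have hD : 0 < |cr e w| := abs_pos.mpr hd
  intro ε hε
  let L : ℤ × ℤ → E2 := fun p => (p.1 : ℝ) • e + (p.2 : ℝ) • w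
  let cp : (ℤ × ℤ) × Bool → (E2 ≃ᵢ E2) := fun q =>
    if q.2 then IsometryEquiv.subLeft (c + L q.1) else IsometryEquiv.addRight (L q.1)
  obtain ⟨φ⟩ : Nonempty (ℕ ≃ (ℤ × ℤ) × Bool) := nonempty_equiv_of_countable
  refine ⟨fun n => cp (φ n), ?_, ?_⟩
  · rw [Set.eq_univ_iff_forall]
    intro x
    obtain ⟨i, j, h | h⟩ := hcov x
    · refine Set.mem_iUnion.mpr ⟨φ.symm ((i, j), false), ?_⟩
      refine ⟨_, h, ?_⟩
      simp [cp, L]
    · refine Set.mem_iUnion.mpr ⟨φ.symm ((i, j), true), ?_⟩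
      refine ⟨_, h, ?_⟩
      simp [cp, L, add_assoc]
  · intro R
    obtain ⟨ρ, hρ, hρ0, hρ1⟩ : ∃ ρ : ℝ, 0 ≤ ρ ∧ ‖x1‖ + ‖e‖ + ‖w‖ ≤ ρ ∧
        ‖c - x1‖ + ‖e‖ + ‖w‖ ≤ ρ := by
      refine ⟨max (‖x1‖ + ‖e‖ + ‖w‖) (‖c - x1‖ + ‖e‖ + ‖w‖), ?_, le_max_left _ _, le_max_right _ _⟩
      exact le_trans (by positivity) (le_max_left _ _)
    set V : ℝ := (volume C).toReal with hV
    have hV0 : 0 ≤ V := ENNReal.toReal_nonneg
    set θ : ℝ := 2 * V / |cr e w| with hθ
    have hθ0 : 0 ≤ θ := by positivity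
    obtain ⟨r, hRr, hr1, hr2⟩ : ∃ r : ℝ, R ≤ r ∧ 1 ≤ r ∧ θ * (2 * ρ + ρ ^ 2) / ε ≤ r := by
      refine ⟨max R (max 1 (θ * (2 * ρ + ρ ^ 2) / ε)), le_max_left _ _, ?_, ?_⟩
      · exact (le_max_left _ _).trans (le_max_right _ _)
      · exact (le_max_right _ _).trans (le_max_right _ _)
    have hr : 0 < r := by linarith
    refine ⟨r, hRr, ?_⟩
    let S : (ℤ × ℤ) × Bool → Prop := fun q => (cp q) '' C ⊆ Metric.ball (0 : E2) r
    let S0 : Set (ℤ × ℤ) := {p | S (p, false)}
    let S1 : Set (ℤ × ℤ) := {p | S (p, true)}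
    have e0 : (∑' i : ℕ, Set.indicator {j : ℕ | (cp (φ j)) '' C ⊆ Metric.ball (0 : E2) r}
            (fun _ : ℕ => MeasureTheory.volume C) i)
          = ∑' q : (ℤ × ℤ) × Bool, Set.indicator {q | S q} (fun _ => volume C) q := by
      rw [← Equiv.tsum_eq φ (fun q => Set.indicator {q | S q} (fun _ => volume C) q)]
      rfl
    have e1 : (∑' q : (ℤ × ℤ) × Bool, Set.indicator {q | S q} (fun _ => volume C) q)
        = volume C * (∑' p, S0.indicator (fun _ => (1 : ENNReal)) p)
          + volume C * (∑' p, S1.indicator (fun _ => (1 : ENNReal)) p) := by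
      have h := ENNReal.tsum_prod (f := fun (p : ℤ × ℤ) (b : Bool) =>
        Set.indicator {q | S q} (fun _ => volume C) (p, b))
      rw [show (∑' q : (ℤ × ℤ) × Bool, Set.indicator {q | S q} (fun _ => volume C) q)
        = ∑' q : (ℤ × ℤ) × Bool, Set.indicator {q | S q} (fun _ => volume C) (q.1, q.2) from rfl, h]
      rw [← ENNReal.tsum_mul_left, ← ENNReal.tsum_mul_left, ← ENNReal.tsum_add]
      refine tsum_congr fun p => ?_
      rw [tsum_bool]
      congr 1
      · by_cases hp : S (p, false)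
        · rw [indicator_of_mem (show (p, false) ∈ {q | S q} from hp),
            indicator_of_mem (show p ∈ S0 from hp), mul_one]
        · rw [indicator_of_notMem (show (p, false) ∉ {q | S q} from hp),
            indicator_of_notMem (show p ∉ S0 from hp), mul_zero]
      · by_cases hp : S (p, true)
        · rw [indicator_of_mem (show (p, true) ∈ {q | S q} from hp),
            indicator_of_mem (show p ∈ S1 from hp), mul_one]
        · rw [indicator_of_notMem (show (p, true) ∉ {q | S q} from hp),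
            indicator_of_notMem (show p ∉ S1 from hp), mul_zero]
    have b0 : (∑' p, S0.indicator (fun _ => (1 : ENNReal)) p) * ENNReal.ofReal |cr e w|
        ≤ volume (Metric.ball (0 : E2) (r + ρ)) := by
      refine (cells e w x1 hd r S0 ?_).trans (measure_mono (Metric.ball_subset_ball (by linarith)))
      intro p hp
      have h : (cp (p, false)) x1 ∈ Metric.ball (0 : E2) r := hp ⟨x1, hx1, rfl⟩
      rw [mem_ball_zero_iff] at h
      have h2 : (cp (p, false)) x1 = ((p.1 : ℝ) • e + (p.2 : ℝ) • w) + x1 := by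
        simp [cp, L, add_comm]
      rwa [h2] at h
    have b1 : (∑' p, S1.indicator (fun _ => (1 : ENNReal)) p) * ENNReal.ofReal |cr e w|
        ≤ volume (Metric.ball (0 : E2) (r + ρ)) := by
      refine (cells e w (c - x1) hd r S1 ?_).trans
        (measure_mono (Metric.ball_subset_ball (by linarith)))
      intro p hp
      have h : (cp (p, true)) x1 ∈ Metric.ball (0 : E2) r := hp ⟨x1, hx1, rfl⟩
      rw [mem_ball_zero_iff] at h
      have h2 : (cp (p, true)) x1 = ((p.1 : ℝ) • e + (p.2 : ℝ) • w) + (c - x1) := by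
        simp only [cp, L, if_true, IsometryEquiv.subLeft_apply]
        abel
      rwa [h2] at h
    have hDe : ENNReal.ofReal |cr e w| ≠ 0 := by
      rw [Ne, ENNReal.ofReal_eq_zero, not_le]; exact hD
    have hDt : ENNReal.ofReal |cr e w| ≠ ⊤ := ENNReal.ofReal_ne_top
    have c0 : (∑' p, S0.indicator (fun _ => (1 : ENNReal)) p)
        ≤ volume (Metric.ball (0 : E2) (r + ρ)) / ENNReal.ofReal |cr e w| := by
      rw [ENNReal.le_div_iff_mul_le (Or.inl hDe) (Or.inl hDt)]
      exact b0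
    have c1 : (∑' p, S1.indicator (fun _ => (1 : ENNReal)) p)
        ≤ volume (Metric.ball (0 : E2) (r + ρ)) / ENNReal.ofReal |cr e w| := by
      rw [ENNReal.le_div_iff_mul_le (Or.inl hDe) (Or.inl hDt)]
      exact b1
    have hvC : volume C = ENNReal.ofReal V := (ENNReal.ofReal_toReal hfin).symm
    show (∑' i : ℕ, Set.indicator {j : ℕ | (cp (φ j)) '' C ⊆ Metric.ball (0 : E2) r}
            (fun _ : ℕ => MeasureTheory.volume C) i) ≤ _
    rw [e0, e1]
    calc volume C * (∑' p, S0.indicator (fun _ => (1 : ENNReal)) p)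
          + volume C * (∑' p, S1.indicator (fun _ => (1 : ENNReal)) p)
        ≤ volume C * (volume (Metric.ball (0 : E2) (r + ρ)) / ENNReal.ofReal |cr e w|)
          + volume C * (volume (Metric.ball (0 : E2) (r + ρ)) / ENNReal.ofReal |cr e w|) := by
          gcongr
      _ = ENNReal.ofReal θ * volume (Metric.ball (0 : E2) (r + ρ)) := by
          rw [hvC, hθ, ENNReal.div_eq_inv_mul, ← ENNReal.ofReal_inv_of_pos hD, ← mul_assoc,
            ← ENNReal.ofReal_mul hV0, ← add_mul, ← ENNReal.ofReal_add (by positivity) (by positivity)]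
          congr 2
          field_simp
          ring
      _ = ENNReal.ofReal θ * (ENNReal.ofReal ((r + ρ) ^ 2 / r ^ 2)
            * volume (Metric.ball (0 : E2) r)) := by rw [ball_ratio r ρ hr hρ]
      _ = ENNReal.ofReal (θ * ((r + ρ) ^ 2 / r ^ 2)) * volume (Metric.ball (0 : E2) r) := by
          rw [← mul_assoc, ← ENNReal.ofReal_mul hθ0]
      _ ≤ ENNReal.ofReal (θ + ε) * volume (Metric.ball (0 : E2) r) := by
          gcongr
          have h3 : θ * (2 * ρ + ρ ^ 2) ≤ r * ε := by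
            rwa [div_le_iff₀ hε] at hr2
          rw [mul_div_assoc', div_le_iff₀ (by positivity)]
          have h4 : θ * ρ ^ 2 ≤ θ * ρ ^ 2 * r := by
            nlinarith [mul_nonneg hθ0 (sq_nonneg ρ)]
          nlinarith [mul_le_mul_of_nonneg_right h3 hr.le]

end Pool.Agent.MP49888f.CV
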