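import Pool.Agent.Lib.MP_49888f_co.CV.Defs

/-! Board CV, module Yset: elementary properties of `Yset S l = {y | ∃ x, (x,y) ∈ S ∧ (x+l,y) ∈ S}`.

PROOFS.
`Yset_isCompact`: `Yset S l` is the image under `Prod.snd` of the compact set `S ∩ {p | (p.1 + l, p.2) ∈ S}`.
`Yset_mix`: convex combination of the two pairs of points.
`Yset_convex`: from `Yset_mix` with `l1 = l2 = l`.
`Yset_anti`: `(x + l, y)` is a convex combination of `(x,y)` and `(x+l',y)`.
`wd_concave`: let `wd S l = (volume (Yset S l)).toReal`. If `Yset S L` is nonempty then on `Icc 0 L` all `Yset S l`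
 are nonempty compact intervals `Icc (sInf Y) (sSup Y)` (compact + convex; a convex subset of `ℝ` which is compact
 and nonempty equals `Icc (sInf) (sSup)`), `wd = sSup - sInf`. `Yset_mix` applied to the two upper (lower) end
 points: `sSup Y(s a + t b) ≥ s sSup Y(a) + t sSup Y(b)`, `sInf ≤ ...`. So `wd` is concave.
`wd_anti`: `measure_mono` and finiteness (compact). -/

set_option autoImplicit false

namespace Pool.Agent.MP49888f.CV

open MeasureTheory Set

theorem Yset_isCompact (S : Set (ℝ × ℝ)) (hk : IsCompact S) (l : ℝ) : IsCompact (Yset S l) := by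
  have h1 : IsClosed {p : ℝ × ℝ | (p.1 + l, p.2) ∈ S} := by
    have hc : Continuous (fun p : ℝ × ℝ => (p.1 + l, p.2)) := by fun_prop
    exact hk.isClosed.preimage hc
  have h2 : IsCompact (S ∩ {p : ℝ × ℝ | (p.1 + l, p.2) ∈ S}) := hk.inter_right h1
  have h3 : Yset S l = Prod.snd '' (S ∩ {p : ℝ × ℝ | (p.1 + l, p.2) ∈ S}) := by
    ext y
    constructor
    · rintro ⟨x, hx1, hx2⟩
      exact ⟨(x, y), ⟨hx1, hx2⟩, rfl⟩
    · rintro ⟨⟨x, y'⟩, ⟨hx1, hx2⟩, rfl⟩
      exact ⟨x, hx1, hx2⟩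
  rw [h3]
  exact h2.image continuous_snd

theorem Yset_mix (S : Set (ℝ × ℝ)) (hc : Convex ℝ S) {l1 l2 y1 y2 s t : ℝ} (h1 : y1 ∈ Yset S l1)
    (h2 : y2 ∈ Yset S l2) (hs : 0 ≤ s) (ht : 0 ≤ t) (hst : s + t = 1) :
    s * y1 + t * y2 ∈ Yset S (s * l1 + t * l2) := by
  obtain ⟨x1, ha1, hb1⟩ := h1
  obtain ⟨x2, ha2, hb2⟩ := h2
  refine ⟨s * x1 + t * x2, ?_, ?_⟩
  · have := hc ha1 ha2 hs ht hst
    simpa [smul_eq_mul] using this
  · have := hc hb1 hb2 hs ht hst
    have e : s • ((x1 + l1, y1) : ℝ × ℝ) + t • ((x2 + l2, y2) : ℝ × ℝ)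
        = (s * x1 + t * x2 + (s * l1 + t * l2), s * y1 + t * y2) := by
      ext
      · simp [smul_eq_mul]; ring
      · simp [smul_eq_mul]
    rw [e] at this
    exact this

theorem Yset_convex (S : Set (ℝ × ℝ)) (hc : Convex ℝ S) (l : ℝ) : Convex ℝ (Yset S l) := by
  intro y1 h1 y2 h2 s t hs ht hst
  have := Yset_mix S hc h1 h2 hs ht hst
  have e : s * l + t * l = l := by rw [← add_mul, hst, one_mul]
  rw [e] at this
  simpa [smul_eq_mul] using this

theorem Yset_anti (S : Set (ℝ × ℝ)) (hc : Convex ℝ S) {l l' : ℝ} (h0 : 0 ≤ l) (h : l ≤ l') :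
    Yset S l' ⊆ Yset S l := by
  rintro y ⟨x, ha, hb⟩
  refine ⟨x, ha, ?_⟩
  rcases eq_or_lt_of_le (h0.trans h) with h0' | h0'
  · have : l = l' := le_antisymm h (by rw [← h0']; exact h0)
    rw [this]; exact hb
  · have hq : l / l' ≤ 1 := by rw [div_le_one h0']; exact h
    have hq0 : 0 ≤ l / l' := by positivity
    have := hc ha hb (sub_nonneg.2 hq) hq0 (by ring)
    have e : (1 - l / l') • ((x, y) : ℝ × ℝ) + (l / l') • ((x + l', y) : ℝ × ℝ) = (x + l, y) := by
      ext
      · simp [smul_eq_mul]; field_simp; ring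
      · simp [smul_eq_mul]; ring
    rw [e] at this
    exact this

/-- a nonempty compact convex subset of the line is a closed interval -/
theorem compact_convex_eq_Icc (Y : Set ℝ) (hk : IsCompact Y) (hc : Convex ℝ Y) (hne : Y.Nonempty) :
    Y = Icc (sInf Y) (sSup Y) := by
  apply Subset.antisymm
  · intro y hy
    exact ⟨csInf_le hk.bddBelow hy, le_csSup hk.bddAbove hy⟩
  · have := hc.ordConnected
    exact this.out (hk.sInf_mem hne) (hk.sSup_mem hne)

theorem wd_concave (S : Set (ℝ × ℝ)) (hc : Convex ℝ S) (hk : IsCompact S) (L : ℝ) (hL : 0 ≤ L)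
    (hne : (Yset S L).Nonempty) :
    ConcaveOn ℝ (Icc 0 L) (fun l => (volume (Yset S l)).toReal) := by
  have key : ∀ l ∈ Icc (0:ℝ) L, (Yset S l).Nonempty := by
    intro l hl
    exact hne.mono (Yset_anti S hc hl.1 hl.2)
  have hI : ∀ l ∈ Icc (0:ℝ) L, Yset S l = Icc (sInf (Yset S l)) (sSup (Yset S l)) := fun l hl =>
    compact_convex_eq_Icc _ (Yset_isCompact S hk l) (Yset_convex S hc l) (key l hl)
  have hle : ∀ l ∈ Icc (0:ℝ) L, sInf (Yset S l) ≤ sSup (Yset S l) := fun l hl =>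
    csInf_le_csSup (key l hl) (Yset_isCompact S hk l).bddBelow (Yset_isCompact S hk l).bddAbove
  have hv : ∀ l ∈ Icc (0:ℝ) L, (volume (Yset S l)).toReal = sSup (Yset S l) - sInf (Yset S l) := by
    intro l hl
    conv_lhs => rw [hI l hl]
    rw [Real.volume_Icc, ENNReal.toReal_ofReal (sub_nonneg.2 (hle l hl))]
  refine ⟨convex_Icc 0 L, ?_⟩
  intro a ha b hb s t hs ht hst
  have hab : s • a + t • b ∈ Icc (0:ℝ) L := convex_Icc 0 L ha hb hs ht hst
  show s • (volume (Yset S a)).toReal + t • (volume (Yset S b)).toReal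
    ≤ (volume (Yset S (s • a + t • b))).toReal
  rw [hv a ha, hv b hb, hv _ hab]
  have m1 := Yset_mix S hc ((Yset_isCompact S hk a).sSup_mem (key a ha))
    ((Yset_isCompact S hk b).sSup_mem (key b hb)) hs ht hst
  have m2 := Yset_mix S hc ((Yset_isCompact S hk a).sInf_mem (key a ha))
    ((Yset_isCompact S hk b).sInf_mem (key b hb)) hs ht hst
  have k1 := le_csSup (Yset_isCompact S hk _).bddAbove m1
  have k2 := csInf_le (Yset_isCompact S hk _).bddBelow m2
  simp only [smul_eq_mul]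
  linarith

theorem wd_anti (S : Set (ℝ × ℝ)) (hc : Convex ℝ S) (hk : IsCompact S) :
    AntitoneOn (fun l => (volume (Yset S l)).toReal) (Ici 0) := by
  intro a ha b hb hab
  exact ENNReal.toReal_mono (Yset_isCompact S hk a).measure_lt_top.ne
    (measure_mono (Yset_anti S hc ha hab))

end Pool.Agent.MP49888f.CV
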