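import Pool.Agent.Lib.MP_49888f_co.CV.Cover
import Pool.Agent.Lib.MP_49888f_co.CV.Dens
import Pool.Agent.Lib.MP_49888f_co.CV.Yset

/-! Board CV, module HexPhi: the hexagon `Phi` (chords of length `l` at the two ends of `Yset S l`, apexes at the
lowest and the highest point of `S`).

PROOF. `S = fr u w ⁻¹' C` is compact and convex (`isCompact_fr_preimage`, `convex_fr_preimage`).
`Yset S l = Icc y1 y2` and `Yset S 0 = Icc m0 m1` (`compact_convex_eq_Icc`; `Yset S 0` nonempty because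
`Yset S l ⊆ Yset S 0`), `wl = y2 - y1`, `W = m1 - m0 > 0`, `m0 ≤ y1 ≤ y2 ≤ m1`.
Take `a1, a2` with `(a1,y1),(a1+l,y1),(a2,y2),(a2+l,y2) ∈ S` and `(b,m0), (t,m1) ∈ S`. Put
`A = fr (a1,y1)`, `e = l • u`, `f = fr (a2-a1, y2-y1)`, `P = fr (t,m1)`, `Q = fr (b,m0)`,
`g x = cr u x` (as a linear map, e.g. `{ toFun := cr u, map_add' := cr_add_right u, map_smul' := ..}`).
`g (fr (x,y)) = y` since `cr u u = 0`, `cr u w = 1`. Kernel of `g`: `x = fr (cr x w, cr u x) = cr x w • u =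
(cr x w / l) • e` (`fr_coord`). `cover` gives the hypothesis of `dens` with `e`, `w := f + P - Q`, `c := A + f + P`;
`cr e (f+P-Q) = l ((y2-y1) + m1 - m0) = l (W + wl) > 0`. So `CovLE C (2 vol C/(l (W + wl)))`. -/

set_option autoImplicit false

namespace Pool.Agent.MP49888f.CV

open MeasureTheory Set

private theorem fr_add_aux (u w : E2) (p q : ℝ × ℝ) :
    fr u w p + fr u w q = fr u w (p.1 + q.1, p.2 + q.2) := by
  unfold fr
  simp only [add_smul]
  abel

private theorem fr_left_aux (u w : E2) (a : ℝ) : a • u = fr u w (a, 0) := by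
  unfold fr
  simp

private theorem cr_fr_aux (u w : E2) (huw : cr u w = 1) (p : ℝ × ℝ) : cr u (fr u w p) = p.2 := by
  unfold fr
  rw [cr_add_right, cr_smul_right, cr_smul_right, cr_self, huw]
  ring

private theorem vol_Icc_aux (a b : ℝ) (h : a ≤ b) : (volume (Icc a b)).toReal = b - a := by
  rw [Real.volume_Icc, ENNReal.toReal_ofReal (sub_nonneg.mpr h)]

theorem hexPhi (C : Set E2) (hC : Convex ℝ C) (hk : IsCompact C) (u w : E2) (huw : cr u w = 1)
    (l : ℝ) (hl : 0 < l) (hne : (Yset (fr u w ⁻¹' C) l).Nonempty)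
    (hW : 0 < (volume (Yset (fr u w ⁻¹' C) 0)).toReal) :
    CovLE C (2 * (volume C).toReal /
      (l * ((volume (Yset (fr u w ⁻¹' C) 0)).toReal + (volume (Yset (fr u w ⁻¹' C) l)).toReal))) := by
  have hcS : Convex ℝ (fr u w ⁻¹' C) := convex_fr_preimage u w C hC
  have hkS : IsCompact (fr u w ⁻¹' C) := isCompact_fr_preimage u w huw C hk
  have hsub : Yset (fr u w ⁻¹' C) l ⊆ Yset (fr u w ⁻¹' C) 0 := Yset_anti _ hcS le_rfl hl.le
  have hne0 : (Yset (fr u w ⁻¹' C) 0).Nonempty := hne.mono hsub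
  have eY := compact_convex_eq_Icc _ (Yset_isCompact _ hkS l) (Yset_convex _ hcS l) hne
  have eY0 := compact_convex_eq_Icc _ (Yset_isCompact _ hkS 0) (Yset_convex _ hcS 0) hne0
  set y1 := sInf (Yset (fr u w ⁻¹' C) l) with hy1
  set y2 := sSup (Yset (fr u w ⁻¹' C) l) with hy2
  set m0 := sInf (Yset (fr u w ⁻¹' C) 0) with hm0
  set m1 := sSup (Yset (fr u w ⁻¹' C) 0) with hm1
  have h12 : y1 ≤ y2 := by
    rw [eY] at hne
    exact Set.nonempty_Icc.mp hne
  have hm : m0 ≤ m1 := by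
    rw [eY0] at hne0
    exact Set.nonempty_Icc.mp hne0
  have my1 : y1 ∈ Yset (fr u w ⁻¹' C) l := by rw [eY]; exact ⟨le_rfl, h12⟩
  have my2 : y2 ∈ Yset (fr u w ⁻¹' C) l := by rw [eY]; exact ⟨h12, le_rfl⟩
  have mm0 : m0 ∈ Yset (fr u w ⁻¹' C) 0 := by rw [eY0]; exact ⟨le_rfl, hm⟩
  have mm1 : m1 ∈ Yset (fr u w ⁻¹' C) 0 := by rw [eY0]; exact ⟨hm, le_rfl⟩
  have hm01 : m0 ≤ y1 := by
    have h := hsub my1
    rw [eY0] at h
    exact h.1
  have hm02 : y2 ≤ m1 := by
    have h := hsub my2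
    rw [eY0] at h
    exact h.2
  have v1 : (volume (Yset (fr u w ⁻¹' C) l)).toReal = y2 - y1 := by
    rw [eY]; exact vol_Icc_aux _ _ h12
  have v0 : (volume (Yset (fr u w ⁻¹' C) 0)).toReal = m1 - m0 := by
    rw [eY0]; exact vol_Icc_aux _ _ hm
  rw [v0] at hW
  rw [v0, v1]
  obtain ⟨a1, hA, hAe⟩ := my1
  obtain ⟨a2, hB, hBe⟩ := my2
  obtain ⟨b, hQ, -⟩ := mm0
  obtain ⟨t, hP, -⟩ := mm1
  clear_value y1 y2 m0 m1
  let g : E2 →ₗ[ℝ] ℝ :=
    { toFun := cr u
      map_add' := cr_add_right u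
      map_smul' := fun c x => cr_smul_right c u x }
  have hg : ∀ x, g x = cr u x := fun x => rfl
  have gfr : ∀ p : ℝ × ℝ, g (fr u w p) = p.2 := fun p => cr_fr_aux u w huw p
  set A := fr u w (a1, y1) with hAdef
  set f := fr u w (a2 - a1, y2 - y1) with hfdef
  set P := fr u w (t, m1) with hPdef
  set Q := fr u w (b, m0) with hQdef
  have eAe : A + l • u = fr u w (a1 + l, y1) := by
    rw [hAdef, fr_left_aux u w, fr_add_aux]
    simp
  have eAf : A + f = fr u w (a2, y2) := by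
    rw [hAdef, hfdef, fr_add_aux]
    simp
  have eAef : A + l • u + f = fr u w (a2 + l, y2) := by
    rw [eAe, hfdef, fr_add_aux]
    congr 1
    refine Prod.ext ?_ ?_
    · show a1 + l + (a2 - a1) = a2 + l
      ring
    · show y1 + (y2 - y1) = y2
      ring
  have ggH : g (f + P - Q) = (m1 - m0) + (y2 - y1) := by
    rw [map_sub, map_add, hfdef, hPdef, hQdef, gfr, gfr, gfr]
    ring
  have hcr : cr (l • u) (f + P - Q) = l * ((m1 - m0) + (y2 - y1)) := by
    rw [cr_smul_left, ← hg, ggH]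
  have hpos : 0 < l * ((m1 - m0) + (y2 - y1)) := by
    apply mul_pos hl
    linarith
  have hcov := cover C hC g A (l • u) f P Q
    (by
      intro x hx
      refine ⟨cr x w / l, ?_⟩
      have h := fr_coord u w huw x
      rw [hg] at hx
      rw [hx] at h
      unfold fr at h
      simp only [zero_smul, add_zero] at h
      rw [smul_smul, div_mul_cancel₀ _ hl.ne']
      exact h.symm)
    (by rw [hg, cr_smul_right, cr_self, mul_zero])
    hA (by rw [eAe]; exact hAe) (by rw [eAf]; exact hB) (by rw [eAef]; exact hBe) hP hQ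
    (by rw [hfdef, gfr]; show 0 ≤ y2 - y1; linarith)
    (by rw [eAf, gfr, hPdef, gfr]; exact hm02)
    (by rw [hQdef, gfr, hAdef, gfr]; exact hm01)
    (by rw [ggH]; linarith)
  have hd := dens C hk ⟨A, hA⟩ (l • u) (f + P - Q) (A + f + P) (by rw [hcr]; exact hpos.ne') hcov
  rw [hcr, abs_of_pos hpos] at hd
  exact hd

end Pool.Agent.MP49888f.CV
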