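import Pool.Agent.Lib.MP_49888f_co.CV.Cover
import Pool.Agent.Lib.MP_49888f_co.CV.Dens
import Pool.Agent.Lib.MP_49888f_co.CV.Yset

/-! Board CV, module HexPsi: the hexagon `Psi` (chords of length `l` at the two ends of `Yset S l` are the two equal
parallel sides, the other two vertices are the ends of the longest chord).

PROOF. `S = fr u w ⁻¹' C` compact convex. `Yset S l = Icc y1 y2`, `wl = y2 - y1 > 0`. Points
`(a1,y1),(a1+l,y1),(a2,y2),(a2+l,y2) ∈ S`. Take `y0 ∈ Yset S L ⊆ Yset S l` (so `y1 ≤ y0 ≤ y2`) with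
`(a0,y0),(a0+L,y0) ∈ S`. Put `s = (y0-y1)/wl ∈ [0,1]`, `a = a1 + s (a2-a1)`: by convexity `(a,y0), (a+l,y0) ∈ S`.
CLAIM `a0 ≤ a` and `a + l ≤ a0 + L`: if `a < a0` then `(a,y0)` and `(a0+L,y0)` are in `S` at distance
`a0 + L - a > L`, so `y0 ∈ Yset S (a0+L-a) = ∅`, contradiction; if `a + l > a0 + L`: `(a0,y0),(a+l,y0) ∈ S` at distance
`a + l - a0 > L`, same contradiction.
Use `cover` with `e := fr (a2-a1, y2-y1)`, `f := l • u`, `A := fr (a1,y1)`, `P := fr (a0+L,y0)`, `Q := fr (a0,y0)`,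
`g x = cr x e` (linear in `x`). `g (fr (x,y)) = x (y2-y1) - y (a2-a1)` (as `cr u w = 1`, `cr w u = -1`).
`A + e = fr (a2,y2)`, `A + f = fr (a1+l,y1)`, `A + e + f = fr (a2+l,y2)`. `g e = 0`; kernel: if `cr x e = 0`, write
`x = fr (p,q)`: `p (y2-y1) = q (a2-a1)`, so `x = (q/(y2-y1)) • e`. `g f = l wl ≥ 0`.
`g P - g (A+f) = (a0+L) wl - y0 (a2-a1) - (a1+l) wl + y1 (a2-a1) = wl (a0 + L - a - l) ≥ 0`
(since `(y0-y1)(a2-a1) = wl (a - a1)`), `g A - g Q = wl (a - a0) ≥ 0`. `g (f+P-Q) = (l + L) wl > 0`,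
`cr e (f+P-Q) = - g(f+P-Q)`, `|..| = (l+L) wl`. `dens` gives the claim. -/

set_option autoImplicit false

namespace Pool.Agent.MP49888f.CV

open MeasureTheory Set

private theorem fr_add_aux (u w : E2) (p q : ℝ × ℝ) :
    fr u w p + fr u w q = fr u w (p.1 + q.1, p.2 + q.2) := by
  unfold fr
  simp only [add_smul]
  abel

private theorem fr_left_aux (u w : E2) (a : ℝ) : a • u = fr u w (a, 0) := by
  unfold fr
  simp

private theorem cr_fr_fr_aux (u w : E2) (huw : cr u w = 1) (p q : ℝ × ℝ) :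
    cr (fr u w p) (fr u w q) = p.1 * q.2 - p.2 * q.1 := by
  have hwu : cr w u = -1 := by rw [cr_comm, huw]
  unfold fr
  rw [cr_add_left, cr_add_right, cr_add_right, cr_smul_left, cr_smul_left, cr_smul_left,
    cr_smul_left, cr_smul_right, cr_smul_right, cr_smul_right, cr_smul_right, cr_self, cr_self,
    huw, hwu]
  ring

private theorem vol_Icc_aux (a b : ℝ) (h : a ≤ b) : (volume (Icc a b)).toReal = b - a := by
  rw [Real.volume_Icc, ENNReal.toReal_ofReal (sub_nonneg.mpr h)]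

theorem hexPsi (C : Set E2) (hC : Convex ℝ C) (hk : IsCompact C) (u w : E2) (huw : cr u w = 1)
    (l L : ℝ) (hl : 0 ≤ l) (hlL : l ≤ L) (hneL : (Yset (fr u w ⁻¹' C) L).Nonempty)
    (hmax : ∀ l', L < l' → Yset (fr u w ⁻¹' C) l' = ∅)
    (hw : 0 < (volume (Yset (fr u w ⁻¹' C) l)).toReal) (hL : 0 < L) :
    CovLE C (2 * (volume C).toReal / ((l + L) * (volume (Yset (fr u w ⁻¹' C) l)).toReal)) := by
  have hcS : Convex ℝ (fr u w ⁻¹' C) := convex_fr_preimage u w C hC
  have hkS : IsCompact (fr u w ⁻¹' C) := isCompact_fr_preimage u w huw C hk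
  have hsub : Yset (fr u w ⁻¹' C) L ⊆ Yset (fr u w ⁻¹' C) l := Yset_anti _ hcS hl hlL
  have hne : (Yset (fr u w ⁻¹' C) l).Nonempty := hneL.mono hsub
  have eY := compact_convex_eq_Icc _ (Yset_isCompact _ hkS l) (Yset_convex _ hcS l) hne
  obtain ⟨y0, hy0L⟩ := hneL
  have hy0 : y0 ∈ Yset (fr u w ⁻¹' C) l := hsub hy0L
  set y1 := sInf (Yset (fr u w ⁻¹' C) l) with hy1
  set y2 := sSup (Yset (fr u w ⁻¹' C) l) with hy2
  have h12 : y1 ≤ y2 := by
    rw [eY] at hne
    exact Set.nonempty_Icc.mp hne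
  have my1 : y1 ∈ Yset (fr u w ⁻¹' C) l := by rw [eY]; exact ⟨le_rfl, h12⟩
  have my2 : y2 ∈ Yset (fr u w ⁻¹' C) l := by rw [eY]; exact ⟨h12, le_rfl⟩
  have v1 : (volume (Yset (fr u w ⁻¹' C) l)).toReal = y2 - y1 := by
    rw [eY]; exact vol_Icc_aux _ _ h12
  have hy01 : y1 ≤ y0 ∧ y0 ≤ y2 := by
    rw [eY] at hy0
    exact hy0
  rw [v1] at hw
  rw [v1]
  obtain ⟨a1, hA, hAe⟩ := my1
  obtain ⟨a2, hB, hBe⟩ := my2
  obtain ⟨a0, hQ, hP⟩ := hy0L
  clear_value y1 y2
  -- the chord of length `l` at height `y0`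
  set s : ℝ := (y0 - y1) / (y2 - y1) with hs
  have hs0 : 0 ≤ s := div_nonneg (by linarith) hw.le
  have hs1 : s ≤ 1 := by
    rw [hs, div_le_one hw]
    linarith
  have hsy : s * (y2 - y1) = y0 - y1 := by
    rw [hs]
    exact div_mul_cancel₀ _ hw.ne'
  set a : ℝ := a1 + s * (a2 - a1) with ha
  have ma : (a, y0) ∈ fr u w ⁻¹' C := by
    have h := hcS hA hB (sub_nonneg.mpr hs1) hs0 (by ring)
    have e : (1 - s) • ((a1, y1) : ℝ × ℝ) + s • ((a2, y2) : ℝ × ℝ) = (a, y0) := by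
      refine Prod.ext ?_ ?_
      · show (1 - s) * a1 + s * a2 = a
        rw [ha]; ring
      · show (1 - s) * y1 + s * y2 = y0
        linear_combination hsy
    rwa [e] at h
  have mal : (a + l, y0) ∈ fr u w ⁻¹' C := by
    have h := hcS hAe hBe (sub_nonneg.mpr hs1) hs0 (by ring)
    have e : (1 - s) • ((a1 + l, y1) : ℝ × ℝ) + s • ((a2 + l, y2) : ℝ × ℝ) = (a + l, y0) := by
      refine Prod.ext ?_ ?_
      · show (1 - s) * (a1 + l) + s * (a2 + l) = a + l
        rw [ha]; ring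
      · show (1 - s) * y1 + s * y2 = y0
        linear_combination hsy
    rwa [e] at h
  have ha0 : a0 ≤ a := by
    by_contra hlt
    push Not at hlt
    have h1 : y0 ∈ Yset (fr u w ⁻¹' C) (a0 + L - a) := by
      refine ⟨a, ma, ?_⟩
      have e : a + (a0 + L - a) = a0 + L := by ring
      rw [e]
      exact hP
    rw [hmax (a0 + L - a) (by linarith)] at h1
    exact h1
  have ha1 : a + l ≤ a0 + L := by
    by_contra hlt
    push Not at hlt
    have h1 : y0 ∈ Yset (fr u w ⁻¹' C) (a + l - a0) := by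
      refine ⟨a0, hQ, ?_⟩
      have e : a0 + (a + l - a0) = a + l := by ring
      rw [e]
      exact mal
    rw [hmax (a + l - a0) (by linarith)] at h1
    exact h1
  set e : E2 := fr u w (a2 - a1, y2 - y1) with hedef
  let g : E2 →ₗ[ℝ] ℝ :=
    { toFun := fun x => cr x e
      map_add' := fun x y => cr_add_left x y e
      map_smul' := fun c x => cr_smul_left c x e }
  have hg : ∀ x, g x = cr x e := fun x => rfl
  have gfr : ∀ p : ℝ × ℝ, g (fr u w p) = p.1 * (y2 - y1) - p.2 * (a2 - a1) := by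
    intro p
    rw [hg, hedef, cr_fr_fr_aux u w huw]
  set A := fr u w (a1, y1) with hAdef
  set P := fr u w (a0 + L, y0) with hPdef
  set Q := fr u w (a0, y0) with hQdef
  have eAe : A + e = fr u w (a2, y2) := by
    rw [hAdef, hedef, fr_add_aux]
    simp
  have eAf : A + l • u = fr u w (a1 + l, y1) := by
    rw [hAdef, fr_left_aux u w, fr_add_aux]
    simp
  have eAef : A + e + l • u = fr u w (a2 + l, y2) := by
    rw [eAe, fr_left_aux u w, fr_add_aux]
    simp
  have gl : g (l • u) = l * (y2 - y1) := by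
    rw [fr_left_aux u w, gfr]
    show l * (y2 - y1) - 0 * (a2 - a1) = _
    ring
  have gP : g P = (a0 + L) * (y2 - y1) - y0 * (a2 - a1) := by rw [hPdef, gfr]
  have gQ : g Q = a0 * (y2 - y1) - y0 * (a2 - a1) := by rw [hQdef, gfr]
  have gA : g A = a1 * (y2 - y1) - y1 * (a2 - a1) := by rw [hAdef, gfr]
  have gAf : g (A + l • u) = (a1 + l) * (y2 - y1) - y1 * (a2 - a1) := by rw [eAf, gfr]
  have ggH : g (l • u + P - Q) = (l + L) * (y2 - y1) := by
    rw [map_sub, map_add, gl, gP, gQ]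
    ring
  have key : (y0 - y1) * (a2 - a1) = (y2 - y1) * (a - a1) := by
    rw [ha, ← hsy]
    ring
  have hpos : 0 < (l + L) * (y2 - y1) := mul_pos (by linarith) hw
  have hcr : cr e (l • u + P - Q) = -((l + L) * (y2 - y1)) := by
    rw [cr_comm, ← hg, ggH]
  have hcov := cover C hC g A e (l • u) P Q
    (by
      intro x hx
      refine ⟨cr u x / (y2 - y1), ?_⟩
      have h := fr_coord u w huw x
      have h1 : g (fr u w (cr x w, cr u x)) = 0 := by rw [h]; exact hx
      rw [gfr] at h1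
      have h2 : cr x w = cr u x / (y2 - y1) * (a2 - a1) := by
        have h3 : cr x w * (y2 - y1) = cr u x * (a2 - a1) := by linarith
        field_simp
        linarith
      have h3 : cr u x = cr u x / (y2 - y1) * (y2 - y1) := (div_mul_cancel₀ _ hw.ne').symm
      have h4 : (cr u x / (y2 - y1)) • e = fr u w (cr x w, cr u x) := by
        rw [hedef]
        unfold fr
        show (cr u x / (y2 - y1)) • ((a2 - a1) • u + (y2 - y1) • w) = cr x w • u + cr u x • w
        rw [smul_add, smul_smul, smul_smul, ← h2, ← h3]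
      rw [h4, h])
    (by rw [hg, cr_self])
    hA (by rw [eAe]; exact hB) (by rw [eAf]; exact hAe) (by rw [eAef]; exact hBe) hP hQ
    (by rw [gl]; exact mul_nonneg hl hw.le)
    (by
      rw [gAf, gP]
      have h5 : 0 ≤ (y2 - y1) * (a0 + L - (a + l)) := mul_nonneg hw.le (by linarith)
      nlinarith [key, h5])
    (by
      rw [gQ, gA]
      have h5 : 0 ≤ (y2 - y1) * (a - a0) := mul_nonneg hw.le (by linarith)
      nlinarith [key, h5])
    (by rw [ggH]; exact hpos)
  have hd := dens C hk ⟨A, hA⟩ e (l • u + P - Q) (A + l • u + P)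
    (by rw [hcr]; exact (neg_neg_of_pos hpos).ne) hcov
  rw [hcr, abs_neg, abs_of_pos hpos] at hd
  exact hd

end Pool.Agent.MP49888f.CV
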