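import Pool.Agent.Lib.MP_49888f_co.CV.Yset

/-! Board CV, module SasA: the upper boundary function of a centrally symmetric planar body.

PROOF. `D` compact nonempty. `a = sSup (Prod.fst '' D) ≥ 0` (symmetric), attained at `(a, ya) ∈ D`, and
`(-a, -ya) ∈ D`; `|x| ≤ a` for all `(x,y) ∈ D`. For `x ∈ Icc (-a) a` the slice `V x = {y | (x,y) ∈ D}` is nonempty
(convexity), compact and convex, `V x = Icc (sInf (V x)) (sSup (V x))`; `f x = sSup (V x)` (junk value 0 outside
`Icc (-a) a`, e.g. `f = (Icc (-a) a).indicator (fun x => sSup (V x))`).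
`(x, f x) ∈ D`. By symmetry `sInf (V x) = - sSup (V (-x)) = - f (-x)`.
Measurability/integrability of `f` on `Icc (-a) a`: bounded (by `sup |y|` over `D`) and upper semicontinuous: for
every `c`, `{x ∈ Icc (-a) a | c ≤ f x} = Prod.fst '' (D ∩ {p | c ≤ p.2})` is compact (`measurable_of_Ici` for the
restriction/indicator).
`volume D = ∫⁻ x, volume (V x) = ∫⁻ x in Icc (-a) a, ofReal (f x + f (-x))` (`Measure.prod_apply`;
`volume_eq_prod`), so `(volume D).toReal = ∫ x in (-a)..a, (f x + f (-x)) = 2 ∫ x in (-a)..a, f x`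
(`intervalIntegral.integral_comp_neg`). -/

set_option autoImplicit false

namespace Pool.Agent.MP49888f.CV

open MeasureTheory Set

theorem sasA (D : Set (ℝ × ℝ)) (hc : Convex ℝ D) (hk : IsCompact D) (hs : ∀ p ∈ D, -p ∈ D)
    (hne : D.Nonempty) :
    ∃ (a : ℝ) (f : ℝ → ℝ), 0 ≤ a ∧ (∀ x ∈ Icc (-a) a, (x, f x) ∈ D) ∧
      IntervalIntegrable f volume (-a) a ∧
      (volume D).toReal = 2 * ∫ x in (-a)..a, f x := by
  have hPk : IsCompact (Prod.fst '' D) := hk.image continuous_fst
  have hPne : (Prod.fst '' D).Nonempty := hne.image _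
  set a : ℝ := sSup (Prod.fst '' D) with ha
  have hub : ∀ p ∈ D, p.1 ≤ a := fun p hp => le_csSup hPk.bddAbove ⟨p, hp, rfl⟩
  have hlb : ∀ p ∈ D, -a ≤ p.1 := by
    intro p hp
    have := hub (-p) (hs p hp)
    rw [Prod.fst_neg] at this
    linarith
  have ha0 : 0 ≤ a := by
    obtain ⟨p, hp⟩ := hne
    have h1 := hub p hp
    have h2 := hlb p hp
    linarith
  obtain ⟨pa, hpa, hpa1⟩ := hPk.sSup_mem hPne
  have hpa1 : pa.1 = a := hpa1
  -- the slices
  set V : ℝ → Set ℝ := fun x => {y | (x, y) ∈ D} with hV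
  set f : ℝ → ℝ := fun x => sSup (V x) with hf
  obtain ⟨M, hM⟩ := hk.exists_bound_of_continuousOn (f := fun p : ℝ × ℝ => p.2)
    continuous_snd.continuousOn
  have hM' : ∀ p ∈ D, |p.2| ≤ M := fun p hp => hM p hp
  have hM0 : 0 ≤ M := by
    obtain ⟨p, hp⟩ := hne
    exact (abs_nonneg _).trans (hM' p hp)
  have hVk : ∀ x, IsCompact (V x) := by
    intro x
    have hcl : IsClosed (V x) := hk.isClosed.preimage (Continuous.prodMk_right x)
    exact (hk.image continuous_snd).of_isClosed_subset hcl (fun y hy => ⟨(x, y), hy, rfl⟩)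
  have hVne : ∀ x ∈ Icc (-a) a, (V x).Nonempty := by
    intro x hx
    have hP : Convex ℝ (Prod.fst '' D) := hc.is_linear_image (f := Prod.fst)
      ⟨fun _ _ => rfl, fun _ _ => rfl⟩
    have h1 : a ∈ Prod.fst '' D := ⟨pa, hpa, hpa1⟩
    have h2 : -a ∈ Prod.fst '' D := ⟨-pa, hs pa hpa, by rw [Prod.fst_neg, hpa1]⟩
    obtain ⟨p, hp, hpx⟩ := hP.ordConnected.out h2 h1 hx
    exact ⟨p.2, by show (x, p.2) ∈ D; rw [← hpx]; exact hp⟩
  have hVemp : ∀ x, x ∉ Icc (-a) a → V x = ∅ := by
    intro x hx
    rw [Set.eq_empty_iff_forall_notMem]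
    intro y hy
    exact hx ⟨hlb _ hy, hub _ hy⟩
  have hfD : ∀ x ∈ Icc (-a) a, (x, f x) ∈ D := fun x hx => (hVk x).sSup_mem (hVne x hx)
  have hneg : ∀ x, x ∈ Icc (-a) a → -x ∈ Icc (-a) a := fun x hx =>
    ⟨by linarith [hx.2], by linarith [hx.1]⟩
  have hVI : ∀ x ∈ Icc (-a) a, V x = Icc (-f (-x)) (f x) := by
    intro x hx
    have hbot : (x, -f (-x)) ∈ D := by
      have := hs _ (hfD (-x) (hneg x hx))
      simpa using this
    apply Set.Subset.antisymm
    · intro y hy
      refine ⟨?_, le_csSup (hVk x).bddAbove hy⟩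
      have h1 : -y ∈ V (-x) := hs _ hy
      have h2 := le_csSup (hVk (-x)).bddAbove h1
      have h3 : f (-x) = sSup (V (-x)) := rfl
      linarith
    · have hcV : Convex ℝ (V x) := by
        intro y hy z hz s t hs0 ht0 hst
        have := hc hy hz hs0 ht0 hst
        have e : s • ((x, y) : ℝ × ℝ) + t • (x, z) = (x, s • y + t • z) := by
          ext
          · simp only [Prod.smul_mk, Prod.mk_add_mk, smul_eq_mul]
            rw [← add_mul, hst, one_mul]
          · simp
        rw [e] at this
        exact this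
      intro y hy
      exact hcV.ordConnected.out hbot (hfD x hx) hy
  -- measurability
  have hfm : Measurable f := by
    refine measurable_of_Ici (fun c => ?_)
    have e : f ⁻¹' Ici c = (Prod.fst '' (D ∩ {p | c ≤ p.2})) ∪ ((Icc (-a) a)ᶜ ∩ {_x | c ≤ 0}) := by
      ext x
      constructor
      · intro hx
        have hx' : c ≤ f x := hx
        by_cases hxa : x ∈ Icc (-a) a
        · exact Or.inl ⟨(x, f x), ⟨hfD x hxa, hx'⟩, rfl⟩
        · refine Or.inr ⟨hxa, ?_⟩
          have : f x = 0 := by
            show sSup (V x) = 0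
            rw [hVemp x hxa, Real.sSup_empty]
          rw [this] at hx'
          exact hx'
      · rintro (⟨p, ⟨hp, hpc⟩, rfl⟩ | ⟨hxa, hc0⟩)
        · have : p.2 ≤ f p.1 := le_csSup (hVk p.1).bddAbove (show (p.1, p.2) ∈ D from hp)
          exact le_trans hpc this
        · show c ≤ f x
          have : f x = 0 := by
            show sSup (V x) = 0
            rw [hVemp x hxa, Real.sSup_empty]
          rw [this]
          exact hc0
    rw [e]
    refine MeasurableSet.union ?_ ?_
    · have hcc : IsCompact (D ∩ {p : ℝ × ℝ | c ≤ p.2}) :=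
        hk.inter_right (isClosed_le continuous_const continuous_snd)
      exact (hcc.image continuous_fst).isClosed.measurableSet
    · exact measurableSet_Icc.compl.inter (MeasurableSet.const _)
  have hfb : ∀ x ∈ Icc (-a) a, ‖f x‖ ≤ M := fun x hx => hM' _ (hfD x hx)
  have hfi : IntegrableOn f (Icc (-a) a) := by
    refine Measure.integrableOn_of_bounded (M := M) (by simp) hfm.aestronglyMeasurable ?_
    exact (ae_restrict_iff' measurableSet_Icc).mpr (Filter.Eventually.of_forall hfb)
  have hfii : IntervalIntegrable f volume (-a) a :=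
    (intervalIntegrable_iff_integrableOn_Icc_of_le (by linarith)).mpr hfi
  refine ⟨a, f, ha0, hfD, hfii, ?_⟩
  -- the volume
  have hvol : volume D = ∫⁻ x in Icc (-a) a, ENNReal.ofReal (f x + f (-x)) := by
    rw [Measure.volume_eq_prod, Measure.prod_apply hk.isClosed.measurableSet,
      ← lintegral_indicator measurableSet_Icc]
    refine lintegral_congr (fun x => ?_)
    have e1 : Prod.mk x ⁻¹' D = V x := rfl
    rw [e1]
    by_cases hxa : x ∈ Icc (-a) a
    · rw [Set.indicator_of_mem hxa, hVI x hxa, Real.volume_Icc, sub_neg_eq_add]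
    · rw [Set.indicator_of_notMem hxa, hVemp x hxa, measure_empty]
  have hnn : ∀ x ∈ Icc (-a) a, 0 ≤ f x + f (-x) := by
    intro x hx
    obtain ⟨y, hy⟩ := hVne x hx
    rw [hVI x hx] at hy
    linarith [hy.1, hy.2]
  have hint : ∫ x in Icc (-a) a, (f x + f (-x)) =
      (∫⁻ x in Icc (-a) a, ENNReal.ofReal (f x + f (-x))).toReal := by
    refine integral_eq_lintegral_of_nonneg_ae ?_ ?_
    · exact (ae_restrict_iff' measurableSet_Icc).mpr (Filter.Eventually.of_forall hnn)
    · exact (hfm.add (hfm.comp measurable_neg)).aestronglyMeasurable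
  have hfii' : IntervalIntegrable (fun x => f (-x)) volume (-a) a := by
    refine (intervalIntegrable_iff_integrableOn_Icc_of_le (by linarith)).mpr ?_
    refine Measure.integrableOn_of_bounded (M := M) (by simp)
      (hfm.comp measurable_neg).aestronglyMeasurable ?_
    exact (ae_restrict_iff' measurableSet_Icc).mpr (Filter.Eventually.of_forall
      (fun x hx => hfb _ (hneg x hx)))
  rw [hvol, ← hint, integral_Icc_eq_integral_Ioc, ← intervalIntegral.integral_of_le (by linarith),
    intervalIntegral.integral_add hfii hfii', intervalIntegral.integral_comp_neg]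
  rw [neg_neg]
  ring

end Pool.Agent.MP49888f.CV
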