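import Mathlib

/-! Board CV, module SasB: the substitution of Sas.

PROOF. If `a = 0` both sides: `0 ≤ (π/2) m`, where `0 ≤ m` from the hypothesis with `w = 0`: `a * ... = 0 ≤ m`. Let `a > 0`.
For `w ∈ Icc 0 (π/2)` the hypothesis (with `x1 = a cos w`, `x2 = -a sin w`) gives
`a cos w * f (-a sin w) + a sin w * f (a cos w) ≤ m`. Integrate over `Ioo 0 (π/2)`:
* `∫_{Ioo 0 (π/2)} a sin w * f (a cos w) = ∫_{Ioo 0 a} f`: change of variables
  `integral_image_eq_integral_abs_deriv_smul` with `φ w = a cos w` on `s = Ioo 0 (π/2)` (injective,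
  `φ' = - a sin w`, `|φ'| = a sin w`, image `Ioo 0 a`); integrability from
  `integrableOn_image_iff_integrableOn_abs_deriv_smul`.
* `∫_{Ioo 0 (π/2)} a cos w * f (-a sin w) = ∫_{Ioo (-a) 0} f` with `φ w = - a sin w`.
The sum is `∫ x in (-a)..a, f x` and the right side is `m * (π/2)`. -/

set_option autoImplicit false

namespace Pool.Agent.MP49888f.CV

open MeasureTheory Set

theorem sasB (a m : ℝ) (ha : 0 ≤ a) (f : ℝ → ℝ) (hf : IntervalIntegrable f volume (-a) a)
    (h : ∀ x1 ∈ Icc (-a) a, ∀ x2 ∈ Icc (-a) a, x1 * f x2 - x2 * f x1 ≤ m) :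
    ∫ x in (-a)..a, f x ≤ Real.pi / 2 * m := by
  have hpi := Real.pi_pos
  rcases ha.eq_or_lt with h0 | ha0
  · have hm : (0 : ℝ) ≤ m := by
      have := h 0 ⟨by linarith, ha⟩ 0 ⟨by linarith, ha⟩
      simpa using this
    rw [← h0]
    simp only [neg_zero, intervalIntegral.integral_same]
    positivity
  set s : Set ℝ := Ioo 0 (Real.pi / 2) with hs
  have hsm : MeasurableSet s := measurableSet_Ioo
  have hsin : ∀ w ∈ s, 0 < Real.sin w := fun w hw =>
    Real.sin_pos_of_pos_of_lt_pi hw.1 (by linarith [hw.2])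
  have hcos : ∀ w ∈ s, 0 < Real.cos w := fun w hw =>
    Real.cos_pos_of_mem_Ioo ⟨by linarith [hw.1], hw.2⟩
  -- the map `a cos`
  have d1 : ∀ w ∈ s, HasDerivWithinAt (fun w => a * Real.cos w) (-(a * Real.sin w)) s w := by
    intro w _
    have h1 := ((Real.hasDerivAt_cos w).const_mul a).hasDerivWithinAt (s := s)
    rw [mul_neg] at h1
    exact h1
  have i1 : InjOn (fun w => a * Real.cos w) s := by
    intro x hx y hy hxy
    have hxy' : Real.cos x = Real.cos y := by
      have : a * Real.cos x = a * Real.cos y := hxy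
      exact mul_left_cancel₀ ha0.ne' this
    exact Real.injOn_cos ⟨hx.1.le, by linarith [hx.2]⟩ ⟨hy.1.le, by linarith [hy.2]⟩ hxy'
  have im1 : (fun w => a * Real.cos w) '' s = Ioo 0 a := by
    ext y
    constructor
    · rintro ⟨w, hw, rfl⟩
      refine ⟨mul_pos ha0 (hcos w hw), ?_⟩
      have h1 : Real.cos w < 1 := by
        rw [← Real.cos_zero]
        exact Real.cos_lt_cos_of_nonneg_of_le_pi_div_two le_rfl hw.2.le hw.1
      nlinarith
    · intro hy
      have q0 : 0 < y / a := div_pos hy.1 ha0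
      have q1 : y / a < 1 := (div_lt_one ha0).mpr hy.2
      refine ⟨Real.arccos (y / a), ⟨Real.arccos_pos.mpr q1, Real.arccos_lt_pi_div_two.mpr q0⟩, ?_⟩
      show a * Real.cos (Real.arccos (y / a)) = y
      rw [Real.cos_arccos (by linarith) q1.le]
      field_simp
  -- the map `-a sin`
  have d2 : ∀ w ∈ s, HasDerivWithinAt (fun w => -(a * Real.sin w)) (-(a * Real.cos w)) s w := by
    intro w _
    exact (((Real.hasDerivAt_sin w).const_mul a).neg).hasDerivWithinAt (s := s)
  have i2 : InjOn (fun w => -(a * Real.sin w)) s := by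
    intro x hx y hy hxy
    have hxy' : Real.sin x = Real.sin y := by
      have h1 : -(a * Real.sin x) = -(a * Real.sin y) := hxy
      exact mul_left_cancel₀ ha0.ne' (neg_injective h1)
    exact Real.injOn_sin ⟨by linarith [hx.1], hx.2.le⟩ ⟨by linarith [hy.1], hy.2.le⟩ hxy'
  have im2 : (fun w => -(a * Real.sin w)) '' s = Ioo (-a) 0 := by
    ext y
    constructor
    · rintro ⟨w, hw, rfl⟩
      refine ⟨?_, by have := mul_pos ha0 (hsin w hw); show -(a * Real.sin w) < 0; linarith⟩
      have h1 : Real.sin w < 1 := by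
        rw [← Real.sin_pi_div_two]
        exact Real.sin_lt_sin_of_lt_of_le_pi_div_two (by linarith [hw.1]) le_rfl hw.2
      show -a < -(a * Real.sin w)
      nlinarith
    · intro hy
      have q0 : 0 < (-y) / a := div_pos (by linarith [hy.2]) ha0
      have q1 : (-y) / a < 1 := (div_lt_one ha0).mpr (by linarith [hy.1])
      refine ⟨Real.arcsin ((-y) / a), ⟨Real.arcsin_pos.mpr q0, Real.arcsin_lt_pi_div_two.mpr q1⟩,
        ?_⟩
      show -(a * Real.sin (Real.arcsin ((-y) / a))) = y
      rw [Real.sin_arcsin (by linarith) q1.le]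
      field_simp
  have e1 := integral_image_eq_integral_abs_deriv_smul hsm d1 i1 f
  have e2 := integral_image_eq_integral_abs_deriv_smul hsm d2 i2 f
  rw [im1] at e1
  rw [im2] at e2
  have hf0 : IntegrableOn f (Ioc (-a) a) := (intervalIntegrable_iff_integrableOn_Ioc_of_le
    (by linarith)).mp hf
  have hfa : IntegrableOn f (Ioo 0 a) := hf0.mono_set (fun x hx => ⟨by linarith [hx.1], hx.2.le⟩)
  have hfb : IntegrableOn f (Ioo (-a) 0) := hf0.mono_set (fun x hx => ⟨hx.1, by linarith [hx.2]⟩)
  have g1 : IntegrableOn (fun w => |(-(a * Real.sin w))| • f (a * Real.cos w)) s := by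
    have := (integrableOn_image_iff_integrableOn_abs_deriv_smul hsm d1 i1 f).mp
      (by rw [im1]; exact hfa)
    exact this
  have g2 : IntegrableOn (fun w => |(-(a * Real.cos w))| • f (-(a * Real.sin w))) s := by
    have := (integrableOn_image_iff_integrableOn_abs_deriv_smul hsm d2 i2 f).mp
      (by rw [im2]; exact hfb)
    exact this
  have hsum : ∫ x in (-a)..a, f x = (∫ x in Ioo (-a) 0, f x) + ∫ x in Ioo 0 a, f x := by
    rw [← intervalIntegral.integral_add_adjacent_intervals (b := 0)
      (hf.mono_set (by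
        rw [uIcc_of_le (by linarith), uIcc_of_le (by linarith)]
        exact Icc_subset_Icc_right ha))
      (hf.mono_set (by
        rw [uIcc_of_le ha, uIcc_of_le (by linarith)]
        exact Icc_subset_Icc_left (by linarith))),
      intervalIntegral.integral_of_le (by linarith), intervalIntegral.integral_of_le ha,
      integral_Ioc_eq_integral_Ioo, integral_Ioc_eq_integral_Ioo]
  rw [hsum, e1, e2, ← integral_add g2 g1]
  have hle : ∀ w ∈ s, |(-(a * Real.cos w))| • f (-(a * Real.sin w)) +
      |(-(a * Real.sin w))| • f (a * Real.cos w) ≤ m := by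
    intro w hw
    have hs1 := hsin w hw
    have hc1 := hcos w hw
    rw [abs_neg, abs_neg, abs_of_pos (mul_pos ha0 hc1), abs_of_pos (mul_pos ha0 hs1),
      smul_eq_mul, smul_eq_mul]
    have h1 := h (a * Real.cos w) ⟨by nlinarith, by nlinarith [Real.cos_le_one w]⟩
      (-(a * Real.sin w)) ⟨by nlinarith [Real.sin_le_one w], by nlinarith⟩
    linarith
  have hint : IntegrableOn (fun _ : ℝ => m) s := by
    rw [hs]
    exact integrableOn_const (by simp)
  calc ∫ w in s, (|(-(a * Real.cos w))| • f (-(a * Real.sin w)) +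
      |(-(a * Real.sin w))| • f (a * Real.cos w))
      ≤ ∫ _ in s, m := setIntegral_mono_on (g2.add g1) hint hsm hle
    _ = Real.pi / 2 * m := by
      rw [setIntegral_const, hs]
      have h2 : (0 : ℝ) ≤ Real.pi / 2 := by positivity
      simp [Measure.real, smul_eq_mul, h2]

end Pool.Agent.MP49888f.CV
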