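import Pool.Agent.Lib.MP_49888f_co.CV.Frame
import Pool.Agent.Lib.MP_49888f_co.CV.SasA
import Pool.Agent.Lib.MP_49888f_co.CV.SasB

/-! Board CV, module Sas: `volume D ≤ π * max cr z d`.

PROOF. `cr` is continuous and `D ×ˢ D` compact nonempty: let `(z, d)` be a maximum point of `cr` on `D ×ˢ D` and
`m = cr z d`. Let `u = (1,0)`, `w = (0,1)` (`!₂[1,0]`, `!₂[0,1]`), `cr u w = 1`, `D' = fr u w ⁻¹' D`,
compact, convex, symmetric, nonempty, same volume (`volume_fr_preimage`). `sasA` gives `a, f`. For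
`x1, x2 ∈ Icc (-a) a`: `(x1, f x1), (x2, f x2) ∈ D'`, and `cr (fr (x1, f x1)) (fr (x2, f x2)) = x1 f x2 - x2 f x1 ≤ m`.
`sasB`: `∫ f ≤ π/2 m`, so `volume D = 2 ∫ f ≤ π m`. -/

set_option autoImplicit false

namespace Pool.Agent.MP49888f.CV

open MeasureTheory Set

theorem sas (D : Set E2) (hc : Convex ℝ D) (hk : IsCompact D) (hs : ∀ p ∈ D, -p ∈ D)
    (hne : D.Nonempty) :
    ∃ z ∈ D, ∃ d ∈ D, (volume D).toReal ≤ Real.pi * cr z d := by
  have hcont : Continuous (fun p : E2 × E2 => cr p.1 p.2) := by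
    unfold cr
    fun_prop
  obtain ⟨⟨z, d⟩, hzd, hmax⟩ :=
    (hk.prod hk).exists_isMaxOn (hne.prod hne) hcont.continuousOn
  have hm : ∀ p ∈ D, ∀ q ∈ D, cr p q ≤ cr z d := fun p hp q hq => hmax (Set.mk_mem_prod hp hq)
  refine ⟨z, hzd.1, d, hzd.2, ?_⟩
  obtain ⟨u, hu⟩ : ∃ u : E2, u = !₂[1, 0] := ⟨_, rfl⟩
  obtain ⟨w, hw⟩ : ∃ w : E2, w = !₂[0, 1] := ⟨_, rfl⟩
  have huw : cr u w = 1 := by simp [cr, hu, hw]
  have hfr : ∀ p : ℝ × ℝ, fr u w (-p) = - fr u w p := by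
    intro p
    unfold fr
    rw [Prod.fst_neg, Prod.snd_neg, neg_smul, neg_smul]
    abel
  obtain ⟨a, f, ha, hf1, hf2, hf3⟩ := sasA (fr u w ⁻¹' D) (convex_fr_preimage u w D hc)
    (isCompact_fr_preimage u w huw D hk)
    (by
      intro p hp
      show fr u w (-p) ∈ D
      rw [hfr]
      exact hs _ hp)
    (by
      obtain ⟨x, hx⟩ := hne
      refine ⟨(cr x w, cr u x), ?_⟩
      show fr u w _ ∈ D
      rw [fr_coord u w huw]
      exact hx)
  have h4 := sasB a (cr z d) ha f hf2 (by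
    intro x1 hx1 x2 hx2
    have h := hm _ (hf1 x1 hx1) _ (hf1 x2 hx2)
    have e : cr (fr u w (x1, f x1)) (fr u w (x2, f x2)) = x1 * f x2 - x2 * f x1 := by
      unfold fr
      rw [cr_add_left, cr_add_right, cr_add_right, cr_smul_left, cr_smul_left, cr_smul_left,
        cr_smul_left, cr_smul_right, cr_smul_right, cr_smul_right, cr_smul_right, cr_self, cr_self,
        cr_comm w u, huw]
      ring
    rwa [e] at h)
  rw [← volume_fr_preimage u w huw D, hf3]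
  linarith

end Pool.Agent.MP49888f.CV
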