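import Pool.Agent.Lib.MP_49888f_co.CV.Core
import Pool.Agent.Lib.MP_49888f_co.CV.HexPhi
import Pool.Agent.Lib.MP_49888f_co.CV.HexPsi
import Pool.Agent.Lib.MP_49888f_co.CV.Sas

/-! Board CV, module Asm (helper47): assembly. -/

set_option autoImplicit false

namespace Pool.Agent.MP49888f.CV

open MeasureTheory Set
open scoped Pointwise

/-- the numerical heart: one of the two hexagons is large -/
theorem two_hex {K L W w1 w2 t x : ℝ} (hK : 0 < K) (hL : 0 < L) (hW : 0 < W) (ht : 0 ≤ t) (htx : t ≤ x)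
    (hsum : t + x ≤ 1)
    (h : K ≤ t * L * W + (x - t) * L * w1 + (1 - x) * L * w2) :
    let T := (K + (1 - t - x) * (L * W)) / Cc t x
    T ≤ (((t + x) / 2 * L) + L) * w1 ∨ T ≤ ((1 + x) / 2 * L) * (W + w2) := by
  intro T
  by_contra hcon
  push Not at hcon
  obtain ⟨h1, h2⟩ := hcon
  have hx1 : x ≤ 1 := by linarith
  have hA : 0 < 2 + t + x := by linarith
  have hB : 0 < 1 + x := by linarith
  have hLW : 0 < L * W := mul_pos hL hW
  have hnum : 0 < K + (1 - t - x) * (L * W) := by
    have : 0 ≤ (1 - t - x) * (L * W) := mul_nonneg (by linarith) hLW.le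
    linarith
  have hCpos : 0 < Cc t x := by
    unfold Cc
    rcases lt_or_eq_of_le hx1 with hx | hx
    · have : 0 < 2 * (1 - x) / (1 + x) := by
        apply div_pos <;> linarith
      have h' : 0 ≤ 2 * (x - t) / (2 + t + x) := by
        apply div_nonneg <;> linarith
      linarith
    · have ht0 : t = 0 := by linarith
      subst hx; subst ht0; norm_num
  have hT : T * Cc t x = K + (1 - t - x) * (L * W) := by
    simp only [T]; field_simp
  -- L*w1 < 2T/(2+t+x)
  have e1 : L * w1 < 2 * T / (2 + t + x) := by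
    rw [lt_div_iff₀ hA]; nlinarith
  have e2 : L * w2 < 2 * T / (1 + x) - L * W := by
    have : L * (W + w2) < 2 * T / (1 + x) := by
      rw [lt_div_iff₀ hB]; nlinarith
    nlinarith
  have hC2 : T * Cc t x = (x - t) * (2 * T / (2 + t + x)) + (1 - x) * (2 * T / (1 + x)) := by
    unfold Cc; field_simp
  have k1 : (x - t) * (L * w1) ≤ (x - t) * (2 * T / (2 + t + x)) :=
    mul_le_mul_of_nonneg_left e1.le (by linarith)
  have k2 : (1 - x) * (L * w2) ≤ (1 - x) * (2 * T / (1 + x) - L * W) :=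
    mul_le_mul_of_nonneg_left e2.le (by linarith)
  rcases lt_or_eq_of_le hx1 with hx | hx
  · have k2' : (1 - x) * (L * w2) < (1 - x) * (2 * T / (1 + x) - L * W) :=
      mul_lt_mul_of_pos_left e2 (by linarith)
    nlinarith
  · have ht0 : t = 0 := by linarith
    have k1' : (x - t) * (L * w1) < (x - t) * (2 * T / (2 + t + x)) :=
      mul_lt_mul_of_pos_left e1 (by linarith)
    nlinarith

theorem key (C : Set E2) (hC : Convex ℝ C) (hk : IsCompact C) (hpos : 0 < volume C) (u w : E2)
    (huw : cr u w = 1) (t x : ℝ) (ht : 0 ≤ t) (htx : t ≤ x) (hsum : t + x ≤ 1) :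
    ∃ L : ℝ, 0 < L ∧ (∀ l, (Yset (fr u w ⁻¹' C) l).Nonempty → l ≤ L) ∧
      0 < (volume (Yset (fr u w ⁻¹' C) 0)).toReal ∧
      CovLE C (2 * Cc t x * (volume C).toReal / ((volume C).toReal +
        (1 - t - x) * (L * (volume (Yset (fr u w ⁻¹' C) 0)).toReal))) := by
  have hcS : Convex ℝ (fr u w ⁻¹' C) := convex_fr_preimage u w C hC
  have hkS : IsCompact (fr u w ⁻¹' C) := isCompact_fr_preimage u w huw C hk
  have hvol : volume (fr u w ⁻¹' C) = volume C := volume_fr_preimage u w huw C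
  obtain ⟨L, hL, hneL, hmax, hW, hb⟩ := core (fr u w ⁻¹' C) hcS hkS (by rw [hvol]; exact hpos)
  have hfin : volume C ≠ ⊤ := hk.measure_lt_top.ne
  have hK : 0 < (volume C).toReal := ENNReal.toReal_pos hpos.ne' hfin
  refine ⟨L, hL, ?_, hW, ?_⟩
  · intro l hl
    by_contra hcon
    rw [hmax l (not_le.mp hcon)] at hl
    exact Set.not_nonempty_empty hl
  set W := (volume (Yset (fr u w ⁻¹' C) 0)).toReal with hWdef
  have hx1 : x ≤ 1 := by linarith
  have hx0 : 0 ≤ x := ht.trans htx
  have hb' := hb t x ht htx hx1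
  rw [hvol] at hb'
  have h2 := two_hex hK hL hW ht htx hsum hb'
  simp only at h2
  set T := ((volume C).toReal + (1 - t - x) * (L * W)) / Cc t x with hTdef
  have hLW : 0 < L * W := mul_pos hL hW
  have hnum : 0 < (volume C).toReal + (1 - t - x) * (L * W) := by
    have : 0 ≤ (1 - t - x) * (L * W) := mul_nonneg (by linarith) hLW.le
    linarith
  have hCpos : 0 < Cc t x := by
    unfold Cc
    rcases lt_or_eq_of_le hx1 with hx | hx
    · have : 0 < 2 * (1 - x) / (1 + x) := by
        apply div_pos <;> linarith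
      have h' : 0 ≤ 2 * (x - t) / (2 + t + x) := by
        apply div_nonneg <;> linarith
      linarith
    · have ht0 : t = 0 := by linarith
      subst hx; subst ht0; norm_num
  have hTpos : 0 < T := div_pos hnum hCpos
  have htarget : 2 * Cc t x * (volume C).toReal / ((volume C).toReal + (1 - t - x) * (L * W))
      = 2 * (volume C).toReal / T := by
    rw [hTdef]; field_simp
  rw [htarget]
  rcases h2 with h2 | h2
  · have hl : 0 ≤ (t + x) / 2 * L := by positivity
    have hlL : (t + x) / 2 * L ≤ L := by nlinarith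
    have hw : 0 < (volume (Yset (fr u w ⁻¹' C) ((t + x) / 2 * L))).toReal := by
      by_contra hcon
      have h0 : (volume (Yset (fr u w ⁻¹' C) ((t + x) / 2 * L))).toReal = 0 :=
        le_antisymm (not_lt.mp hcon) ENNReal.toReal_nonneg
      rw [h0, mul_zero] at h2
      linarith
    have := hexPsi C hC hk u w huw ((t + x) / 2 * L) L hl hlL hneL hmax hw hL
    refine this.mono ?_
    exact div_le_div_of_nonneg_left (by positivity) hTpos h2
  · have hl : 0 < (1 + x) / 2 * L := by positivity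
    have hlL : (1 + x) / 2 * L ≤ L := by nlinarith
    have hne : (Yset (fr u w ⁻¹' C) ((1 + x) / 2 * L)).Nonempty :=
      hneL.mono (Yset_anti _ hcS hl.le hlL)
    have := hexPhi C hC hk u w huw ((1 + x) / 2 * L) hl hne hW
    refine this.mono ?_
    exact div_le_div_of_nonneg_left (by positivity) hTpos h2

theorem general (C : Set E2) (hC : Convex ℝ C) (hk : IsCompact C) (hpos : 0 < volume C)
    (z d : E2) (hz : z ∈ C - C) (hd : d ∈ C - C) (t x : ℝ) (ht : 0 ≤ t) (htx : t ≤ x)
    (hsum : t + x ≤ 1) :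
    CovLE C (2 * Cc t x * (volume C).toReal / ((volume C).toReal + (1 - t - x) * |cr z d|)) := by
  have hfin : volume C ≠ ⊤ := hk.measure_lt_top.ne
  have hK : 0 < (volume C).toReal := ENNReal.toReal_pos hpos.ne' hfin
  have hx1 : x ≤ 1 := by linarith
  have hCnn : 0 ≤ Cc t x := by
    unfold Cc
    have h1 : 0 ≤ 2 * (1 - x) / (1 + x) := by
      apply div_nonneg <;> linarith
    have h' : 0 ≤ 2 * (x - t) / (2 + t + x) := by
      apply div_nonneg <;> linarith
    linarith
  have h1tx : 0 ≤ 1 - t - x := by linarith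
  by_cases h0 : cr z d = 0
  · have huw : cr (!₂[(1:ℝ), 0]) (!₂[(0:ℝ), 1]) = 1 := by simp [cr]
    obtain ⟨L, hL, -, hW, hcov⟩ := key C hC hk hpos _ _ huw t x ht htx hsum
    refine hcov.mono ?_
    rw [h0, abs_zero, mul_zero, add_zero]
    apply div_le_div_of_nonneg_left (by positivity) hK
    have : 0 ≤ (1 - t - x) * (L * (volume (Yset (fr !₂[(1:ℝ), 0] !₂[(0:ℝ), 1] ⁻¹' C) 0)).toReal) :=
      mul_nonneg h1tx (by positivity)
    linarith
  · set w0 : E2 := (1 / cr z d) • d with hw0
    have huw : cr z w0 = 1 := by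
      rw [hw0, cr_smul_right]; field_simp
    obtain ⟨L, hL, hmax, hW, hcov⟩ := key C hC hk hpos z w0 huw t x ht htx hsum
    have hcS : Convex ℝ (fr z w0 ⁻¹' C) := convex_fr_preimage z w0 C hC
    have hkS : IsCompact (fr z w0 ⁻¹' C) := isCompact_fr_preimage z w0 huw C hk
    obtain ⟨p, hp, q, hq, hpq⟩ := Set.mem_sub.mp hz
    obtain ⟨r, hr, s, hs, hrs⟩ := Set.mem_sub.mp hd
    -- L ≥ 1
    have hL1 : 1 ≤ L := by
      apply hmax
      refine ⟨cr z q, cr q w0, ?_, ?_⟩
      · show fr z w0 (cr q w0, cr z q) ∈ C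
        rw [fr_coord z w0 huw]; exact hq
      · show fr z w0 (cr q w0 + 1, cr z q) ∈ C
        have : (cr q w0 + 1, cr z q) = (cr p w0, cr z p) := by
          have hp' : p = q + z := by rw [← hpq]; abel
          rw [hp', cr_add_left, cr_add_right, cr_self, huw, add_zero]
        rw [this, fr_coord z w0 huw]; exact hp
    -- heights
    have hmem : ∀ a ∈ C, cr z a ∈ Yset (fr z w0 ⁻¹' C) 0 := by
      intro a ha
      refine ⟨cr a w0, ?_, ?_⟩
      · show fr z w0 (cr a w0, cr z a) ∈ C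
        rw [fr_coord z w0 huw]; exact ha
      · show fr z w0 (cr a w0 + 0, cr z a) ∈ C
        rw [add_zero, fr_coord z w0 huw]; exact ha
    have hYc : Convex ℝ (Yset (fr z w0 ⁻¹' C) 0) := Yset_convex _ hcS 0
    have hYk : IsCompact (Yset (fr z w0 ⁻¹' C) 0) := Yset_isCompact _ hkS 0
    have hW1 : |cr z d| ≤ (volume (Yset (fr z w0 ⁻¹' C) 0)).toReal := by
      have hsub : Set.uIcc (cr z s) (cr z r) ⊆ Yset (fr z w0 ⁻¹' C) 0 :=
        (hYc.ordConnected).uIcc_subset (hmem s hs) (hmem r hr)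
      have hv : volume (Set.uIcc (cr z s) (cr z r)) = ENNReal.ofReal |cr z d| := by
        rw [Real.volume_interval]
        congr 2
        rw [← hrs, cr_sub_right]
      have hle := measure_mono (μ := volume) hsub
      rw [hv] at hle
      exact (ENNReal.ofReal_le_iff_le_toReal hYk.measure_lt_top.ne).mp hle
    refine hcov.mono ?_
    have hden : 0 < (volume C).toReal + (1 - t - x) * |cr z d| := by
      have : 0 ≤ (1 - t - x) * |cr z d| := mul_nonneg h1tx (abs_nonneg _)
      linarith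
    apply div_le_div_of_nonneg_left (by positivity) hden
    have : |cr z d| ≤ L * (volume (Yset (fr z w0 ⁻¹' C) 0)).toReal := by nlinarith [abs_nonneg (cr z d)]
    nlinarith

theorem convex_sub_self (C : Set E2) (hC : Convex ℝ C) : Convex ℝ (C - C) := hC.sub hC

theorem numeric {K R : ℝ} (hK : 0 < K) (hR : 1.4528 * K ≤ R) :
    2 * Cc (3 / 32) (21 / 32) * K / (K + (1 - 3 / 32 - 21 / 32) * R) ≤ 2 * Real.pi / Real.sqrt 27 := by
  have h27 : 0 < Real.sqrt 27 := Real.sqrt_pos.mpr (by norm_num)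
  have hs : Real.sqrt 27 ≤ 5.19616 := by
    rw [Real.sqrt_le_left (by norm_num)]; norm_num
  have hpi : 3.14159 < Real.pi := by
    have := Real.pi_gt_d6; linarith
  have hden : 0 < K + (1 - 3 / 32 - 21 / 32) * R := by nlinarith
  rw [div_le_div_iff₀ hden h27]
  have hCc : Cc (3 / 32) (21 / 32) = 2 * (21 / 32 - 3 / 32) / (2 + 3 / 32 + 21 / 32) + 2 * (1 - 21 / 32) / (1 + 21 / 32) := rfl
  have hv : Cc (3 / 32) (21 / 32) ≤ 0.824186 := by rw [hCc]; norm_num
  have hv0 : 0 ≤ Cc (3 / 32) (21 / 32) := by rw [hCc]; norm_num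
  have e1 : Cc (3 / 32) (21 / 32) * Real.sqrt 27 ≤ 0.824186 * 5.19616 :=
    mul_le_mul hv hs h27.le (by norm_num)
  have e2 : 2 * Cc (3 / 32) (21 / 32) * K * Real.sqrt 27 ≤ 2 * (0.824186 * 5.19616) * K := by nlinarith
  have e3 : K + (1 - 3 / 32 - 21 / 32) * R ≥ 1.3632 * K := by nlinarith
  have e4 : 2 * Real.pi * (K + (1 - 3 / 32 - 21 / 32) * R) ≥ 2 * 3.14159 * (1.3632 * K) := by
    have : 0 ≤ 1.3632 * K := by positivity
    nlinarith
  nlinarith

end Pool.Agent.MP49888f.CV
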