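import Pool.Agent.Lib.MP_49888f_co.CV.Frame

/-! Board CV, module Cells: the number of lattice points `i e + j w` with `‖i e + j w + x0‖ < r`.

PROOF. For `p = (i,j)` let `Cell p = fr e w '' (Ico i (i+1) ×ˢ Ico j (j+1))`. By `volume_fr_image` its volume is
`ofReal |cr e w| * 1` (the product of two unit intervals: `Measure.volume_eq_prod`, `Measure.prod_prod`,
`Real.volume_Ico`). The cells of different `p` are disjoint because `fr e w` is injective (`fr_inj`) and the
half-open unit boxes are disjoint (floors). For `p ∈ S` the cell is contained in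
`ball 0 (r + ‖x0‖ + ‖e‖ + ‖w‖)`: a point of the cell is `(i + a) e + (j + b) w`, `0 ≤ a, b < 1`, which equals
`(i e + j w + x0) - x0 + a e + b w`, norm `< r + ‖x0‖ + ‖e‖ + ‖w‖`.
So `∑' p, S.indicator 1 p * ofReal |cr e w| = ∑' p : S, volume (Cell p) = volume (⋃ p ∈ S, Cell p) ≤ volume (ball ..)`
(`measure_biUnion` for countable `S`, needs measurable cells: image of a measurable set under an injective
continuous map of Polish spaces, `MeasurableSet.image_of_continuousOn_injOn`; or only use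
`tsum_measure_le_measure_univ`-type/finite sums: `ENNReal.tsum_eq_iSup_sum` and
`measure_biUnion_finset`.) -/

set_option autoImplicit false

namespace Pool.Agent.MP49888f.CV

open MeasureTheory Set

/-- the half open unit box with lower left corner `p` -/
def ubox (p : ℤ × ℤ) : Set (ℝ × ℝ) :=
  Ico (p.1 : ℝ) ((p.1 : ℝ) + 1) ×ˢ Ico (p.2 : ℝ) ((p.2 : ℝ) + 1)

theorem measurableSet_ubox (p : ℤ × ℤ) : MeasurableSet (ubox p) :=
  measurableSet_Ico.prod measurableSet_Ico

theorem volume_ubox (p : ℤ × ℤ) : volume (ubox p) = 1 := by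
  unfold ubox
  rw [Measure.volume_eq_prod, Measure.prod_prod, Real.volume_Ico, Real.volume_Ico]
  simp

theorem ubox_disjoint {p q : ℤ × ℤ} (h : p ≠ q) : Disjoint (ubox p) (ubox q) := by
  rw [Set.disjoint_left]
  rintro ⟨x, y⟩ ⟨⟨h1, h2⟩, h3, h4⟩ ⟨⟨h5, h6⟩, h7, h8⟩
  simp only at h1 h2 h3 h4 h5 h6 h7 h8
  apply h
  have e1 : p.1 = ⌊x⌋ := by
    symm; rw [Int.floor_eq_iff]; exact ⟨h1, h2⟩
  have e2 : q.1 = ⌊x⌋ := by
    symm; rw [Int.floor_eq_iff]; exact ⟨h5, h6⟩
  have e3 : p.2 = ⌊y⌋ := by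
    symm; rw [Int.floor_eq_iff]; exact ⟨h3, h4⟩
  have e4 : q.2 = ⌊y⌋ := by
    symm; rw [Int.floor_eq_iff]; exact ⟨h7, h8⟩
  exact Prod.ext (e1.trans e2.symm) (e3.trans e4.symm)

theorem cells (e w x0 : E2) (hd : cr e w ≠ 0) (r : ℝ) (S : Set (ℤ × ℤ))
    (hS : ∀ p ∈ S, ‖((p.1 : ℝ) • e + (p.2 : ℝ) • w) + x0‖ < r) :
    (∑' p : ℤ × ℤ, S.indicator (fun _ => (1 : ENNReal)) p) * ENNReal.ofReal |cr e w|
      ≤ volume (Metric.ball (0 : E2) (r + (‖x0‖ + ‖e‖ + ‖w‖))) := by
  classical
  rw [← ENNReal.tsum_mul_right]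
  have h1 : ∀ p : ℤ × ℤ, S.indicator (fun _ => (1 : ENNReal)) p * ENNReal.ofReal |cr e w|
      = volume (if p ∈ S then fr e w '' ubox p else ∅) := by
    intro p
    by_cases hp : p ∈ S
    · rw [indicator_of_mem hp, if_pos hp, volume_fr_image, volume_ubox, one_mul, mul_one]
    · rw [indicator_of_notMem hp, if_neg hp, zero_mul, measure_empty]
  rw [tsum_congr h1, ← measure_iUnion]
  · apply measure_mono
    rw [iUnion_subset_iff]
    intro p
    by_cases hp : p ∈ S
    · rw [if_pos hp]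
      rintro _ ⟨⟨x, y⟩, ⟨⟨h2, h3⟩, h4, h5⟩, rfl⟩
      simp only at h2 h3 h4 h5
      rw [mem_ball_zero_iff]
      have e1 : fr e w (x, y) = (((p.1 : ℝ) • e + (p.2 : ℝ) • w) + x0) +
          (-x0 + ((x - p.1) • e + (y - p.2) • w)) := by
        unfold fr
        module
      rw [e1]
      have n1 : ‖(x - p.1) • e‖ ≤ ‖e‖ := by
        rw [norm_smul, Real.norm_eq_abs, abs_of_nonneg (by linarith)]
        have := norm_nonneg e
        nlinarith
      have n2 : ‖(y - p.2) • w‖ ≤ ‖w‖ := by
        rw [norm_smul, Real.norm_eq_abs, abs_of_nonneg (by linarith)]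
        have := norm_nonneg w
        nlinarith
      have n3 : ‖-x0 + ((x - p.1) • e + (y - p.2) • w)‖ ≤ ‖x0‖ + (‖e‖ + ‖w‖) := by
        refine (norm_add_le _ _).trans ?_
        rw [norm_neg]
        gcongr
        exact (norm_add_le _ _).trans (add_le_add n1 n2)
      have n4 := hS p hp
      have n5 := norm_add_le (((p.1 : ℝ) • e + (p.2 : ℝ) • w) + x0)
        (-x0 + ((x - p.1) • e + (y - p.2) • w))
      linarith
    · rw [if_neg hp]
      exact empty_subset _
  · intro p q hpq
    simp only [Function.onFun]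
    by_cases hp : p ∈ S
    · by_cases hq : q ∈ S
      · rw [if_pos hp, if_pos hq]
        exact (disjoint_image_iff (fr_inj e w hd)).mpr (ubox_disjoint hpq)
      · rw [if_neg hq]
        exact disjoint_empty _
    · rw [if_neg hp]
      exact empty_disjoint _
  · intro p
    by_cases hp : p ∈ S
    · rw [if_pos hp]
      exact (measurableSet_ubox p).image_of_continuousOn_injOn (continuous_fr e w).continuousOn
        (fr_inj e w hd).injOn
    · rw [if_neg hp]
      exact MeasurableSet.empty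

end Pool.Agent.MP49888f.CV
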