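import Mathlib

/-! Board CV, module HH: Hermite-Hadamard for a concave function and the three-interval bound.

PROOF. (a) `hh1`: for `w` concave on `Icc a b` and interval integrable, `∫_a^b w ≤ (b-a) w((a+b)/2)`:
 `2 ∫_a^b w = ∫_a^b (w x + w (a+b-x)) dx` (`intervalIntegral.integral_comp_sub_left`) and
 `w x + w (a+b-x) ≤ 2 w((a+b)/2)` by concavity (weights 1/2, 1/2).
(b) `hh`: `w` is antitone on `Icc 0 L`, so interval integrable on all subintervals
 (`AntitoneOn.intervalIntegrable`). Split `∫_0^L = ∫_0^{tL} + ∫_{tL}^{xL} + ∫_{xL}^{L}`; the first is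
 `≤ t L W` (`intervalIntegral.integral_mono_on` with the constant `W`), the others by (a); midpoints
 `(t L + x L)/2 = (t+x)/2 * L`, `(x L + L)/2 = (1+x)/2 * L`. -/

set_option autoImplicit false

namespace Pool.Agent.MP49888f.CV

open MeasureTheory Set

theorem hh1 (w : ℝ → ℝ) (a b : ℝ) (hab : a ≤ b) (hc : ConcaveOn ℝ (Icc a b) w)
    (hi : IntervalIntegrable w volume a b) :
    ∫ x in a..b, w x ≤ (b - a) * w ((a + b) / 2) := by
  have hi2 : IntervalIntegrable (fun x => w (a + b - x)) volume a b := by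
    have h := hi.comp_sub_left (a + b)
    have e1 : a + b - a = b := by ring
    have e2 : a + b - b = a := by ring
    rw [e1, e2] at h
    exact h.symm
  have h1 : ∫ x in a..b, w (a + b - x) = ∫ x in a..b, w x := by
    rw [intervalIntegral.integral_comp_sub_left w (a + b)]
    congr 1 <;> ring
  have h2 : 2 * ∫ x in a..b, w x = ∫ x in a..b, (w x + w (a + b - x)) := by
    rw [intervalIntegral.integral_add hi hi2, h1]
    ring
  have h3 : ∫ x in a..b, (w x + w (a + b - x)) ≤ ∫ _x in a..b, 2 * w ((a + b) / 2) := by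
    refine intervalIntegral.integral_mono_on hab (hi.add hi2) intervalIntegrable_const ?_
    intro x hx
    have hy : a + b - x ∈ Icc a b := ⟨by linarith [hx.2], by linarith [hx.1]⟩
    have h4 := hc.2 hx hy (by norm_num : (0 : ℝ) ≤ 1 / 2) (by norm_num : (0 : ℝ) ≤ 1 / 2)
      (by norm_num)
    simp only [smul_eq_mul] at h4
    have e : 1 / 2 * x + 1 / 2 * (a + b - x) = (a + b) / 2 := by ring
    rw [e] at h4
    linarith
  rw [intervalIntegral.integral_const, smul_eq_mul] at h3
  linarith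

theorem hh (w : ℝ → ℝ) (L W : ℝ) (hL : 0 ≤ L) (hc : ConcaveOn ℝ (Icc 0 L) w)
    (ha : AntitoneOn w (Icc 0 L)) (hW : ∀ l ∈ Icc 0 L, w l ≤ W) (t x : ℝ) (ht : 0 ≤ t) (htx : t ≤ x)
    (hx : x ≤ 1) :
    ∫ l in (0 : ℝ)..L, w l ≤
      t * L * W + (x - t) * L * w ((t + x) / 2 * L) + (1 - x) * L * w ((1 + x) / 2 * L) := by
  have h0 : 0 ≤ t * L := mul_nonneg ht hL
  have h1 : t * L ≤ x * L := mul_le_mul_of_nonneg_right htx hL
  have h2 : x * L ≤ L := by nlinarith
  have hint : ∀ a b : ℝ, 0 ≤ a → a ≤ b → b ≤ L → IntervalIntegrable w volume a b := by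
    intro a b ha0 hab hbL
    refine AntitoneOn.intervalIntegrable ?_
    rw [uIcc_of_le hab]
    exact ha.mono (Icc_subset_Icc ha0 hbL)
  have i1 := hint 0 (t * L) le_rfl h0 (h1.trans h2)
  have i2 := hint (t * L) (x * L) h0 h1 h2
  have i3 := hint (x * L) L (h0.trans h1) h2 le_rfl
  rw [← intervalIntegral.integral_add_adjacent_intervals (i1.trans i2) i3,
    ← intervalIntegral.integral_add_adjacent_intervals i1 i2]
  have b1 : ∫ l in (0 : ℝ)..(t * L), w l ≤ t * L * W := by
    have h3 : ∫ l in (0 : ℝ)..(t * L), w l ≤ ∫ _l in (0 : ℝ)..(t * L), W := by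
      refine intervalIntegral.integral_mono_on h0 i1 intervalIntegrable_const ?_
      intro l hl
      exact hW l ⟨hl.1, hl.2.trans (h1.trans h2)⟩
    rw [intervalIntegral.integral_const, smul_eq_mul, sub_zero] at h3
    exact h3
  have b2 := hh1 w (t * L) (x * L) h1
    (hc.subset (Icc_subset_Icc h0 h2) (convex_Icc _ _)) i2
  have b3 := hh1 w (x * L) L h2
    (hc.subset (Icc_subset_Icc (h0.trans h1) le_rfl) (convex_Icc _ _)) i3
  have e2 : (t * L + x * L) / 2 = (t + x) / 2 * L := by ring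
  have e3 : (x * L + L) / 2 = (1 + x) / 2 * L := by ring
  rw [e2] at b2
  rw [e3] at b3
  have e4 : (x * L - t * L) = (x - t) * L := by ring
  have e5 : (L - x * L) = (1 - x) * L := by ring
  rw [e4] at b2
  rw [e5] at b3
  linarith

end Pool.Agent.MP49888f.CV
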