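import Pool.Agent.Lib.MP_49888f_co.CV.Slice
import Pool.Agent.Lib.MP_49888f_co.CV.HH

/-! Board CV, module Core: longest horizontal chord `L`, height `W`, and the area bound.

PROOF. Let `Λ = {l | (Yset S l).Nonempty}`. It is compact: the image of the compact set
`{q ∈ S ×ˢ S | q.1.2 = q.2.2}` under `q ↦ q.2.1 - q.1.1`. Nonempty (0 ∈ Λ since `S` is nonempty). `L = sSup Λ ∈ Λ`.
`L ≥ 0`. For `l > L`: `Yset S l = ∅`. By `volume_eq_lintegral_Yset`: `volume S = ∫⁻ l in Ioi 0, volume (Yset S l)
= ∫⁻ l in Ioc 0 L, volume (Yset S l)` (the rest is 0). If `L = 0` this is 0, contradiction; `L > 0`.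
`W = (volume (Yset S 0)).toReal`; every `Yset S l ⊆ Yset S 0` (`l ≥ 0`), finite measure (compact). If `W = 0` then
`volume S = 0`, contradiction. With `wd l = (volume (Yset S l)).toReal`:
`(volume S).toReal = ∫ l in 0..L, wd l` (`integral_eq_lintegral_of_nonneg_ae`/`ofReal_integral_eq_lintegral`,
`intervalIntegral.integral_of_le`; `wd` is antitone hence integrable on `Ioc 0 L`), then `hh` with
`wd_concave`, `wd_anti`. -/

set_option autoImplicit false

namespace Pool.Agent.MP49888f.CV

open MeasureTheory Set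

theorem core (S : Set (ℝ × ℝ)) (hc : Convex ℝ S) (hk : IsCompact S) (hpos : 0 < volume S) :
    ∃ L : ℝ, 0 < L ∧ (Yset S L).Nonempty ∧ (∀ l, L < l → Yset S l = ∅) ∧
      0 < (volume (Yset S 0)).toReal ∧
      ∀ t x : ℝ, 0 ≤ t → t ≤ x → x ≤ 1 →
        (volume S).toReal ≤ t * L * (volume (Yset S 0)).toReal
          + (x - t) * L * (volume (Yset S ((t + x) / 2 * L))).toReal
          + (1 - x) * L * (volume (Yset S ((1 + x) / 2 * L))).toReal := by
  classical
  have hSne : S.Nonempty := by
    by_contra h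
    rw [Set.not_nonempty_iff_eq_empty] at h
    rw [h, measure_empty] at hpos
    exact lt_irrefl _ hpos
  set Lam : Set ℝ := {l | (Yset S l).Nonempty} with hLam
  have hLc : IsCompact Lam := by
    have hE : Lam = (fun q : (ℝ × ℝ) × (ℝ × ℝ) => q.2.1 - q.1.1) ''
        ((S ×ˢ S) ∩ {q | q.1.2 = q.2.2}) := by
      ext l
      constructor
      · rintro ⟨y, x, h1, h2⟩
        exact ⟨((x, y), (x + l, y)), ⟨⟨h1, h2⟩, rfl⟩, by simp⟩
      · rintro ⟨⟨⟨a, b⟩, ⟨c, d⟩⟩, ⟨⟨h1, h2⟩, h3⟩, h4⟩
        have h3' : b = d := h3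
        subst h3'
        refine ⟨b, a, h1, ?_⟩
        have h4' : c - a = l := h4
        have e : a + l = c := by linarith
        rw [e]
        exact h2
    rw [hE]
    refine IsCompact.image ?_ (by fun_prop)
    exact (hk.prod hk).inter_right (isClosed_eq (by fun_prop) (by fun_prop))
  have h0mem : (0 : ℝ) ∈ Lam := by
    obtain ⟨p, hp⟩ := hSne
    refine ⟨p.2, p.1, hp, ?_⟩
    rw [add_zero]
    exact hp
  have hLmem : sSup Lam ∈ Lam := hLc.sSup_mem ⟨0, h0mem⟩
  set L : ℝ := sSup Lam with hLdef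
  have hL0 : 0 ≤ L := le_csSup hLc.bddAbove h0mem
  have hLmax : ∀ l, L < l → Yset S l = ∅ := by
    intro l hl
    by_contra hne
    have h1 : l ∈ Lam := Set.nonempty_iff_ne_empty.mpr hne
    exact absurd (le_csSup hLc.bddAbove h1) (not_le.mpr hl)
  have hV : volume S = ∫⁻ l in Ioc (0 : ℝ) L, volume (Yset S l) := by
    rw [volume_eq_lintegral_Yset S hc hk]
    have hU : Ioi (0 : ℝ) = Ioc 0 L ∪ Ioi L := (Ioc_union_Ioi_eq_Ioi hL0).symm
    have hdis : Disjoint (Ioc (0 : ℝ) L) (Ioi L) := by
      rw [Set.disjoint_left]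
      intro a ha hb
      exact absurd ha.2 (not_le.mpr hb)
    rw [hU, lintegral_union measurableSet_Ioi hdis]
    have hz : ∫⁻ l in Ioi L, volume (Yset S l) = ∫⁻ _ in Ioi L, 0 := by
      refine setLIntegral_congr_fun measurableSet_Ioi ?_
      intro l hl
      show volume (Yset S l) = 0
      rw [hLmax l hl, measure_empty]
    rw [hz, lintegral_zero, add_zero]
  have hfin : ∀ l, volume (Yset S l) ≠ ⊤ := fun l => (Yset_isCompact S hk l).measure_lt_top.ne
  have hLpos : 0 < L := by
    rcases hL0.lt_or_eq with h | h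
    · exact h
    · rw [hV, ← h, Ioc_self, Measure.restrict_empty, lintegral_zero_measure] at hpos
      exact absurd hpos (lt_irrefl _)
  have hWpos : 0 < (volume (Yset S 0)).toReal := by
    rcases (ENNReal.toReal_nonneg (a := volume (Yset S 0))).lt_or_eq with h | h
    · exact h
    · exfalso
      have h0 : volume (Yset S 0) = 0 := by
        rcases (ENNReal.toReal_eq_zero_iff _).mp h.symm with h | h
        · exact h
        · exact absurd h (hfin 0)
      have hz : ∫⁻ l in Ioc (0 : ℝ) L, volume (Yset S l) = ∫⁻ _ in Ioc (0 : ℝ) L, 0 := by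
        refine setLIntegral_congr_fun measurableSet_Ioc ?_
        intro l hl
        show volume (Yset S l) = 0
        exact measure_mono_null (Yset_anti S hc le_rfl hl.1.le) h0
      rw [hV, hz, lintegral_zero] at hpos
      exact absurd hpos (lt_irrefl _)
  have hanti : AntitoneOn (fun l => (volume (Yset S l)).toReal) (Ici 0) := wd_anti S hc hk
  have hanti' : AntitoneOn (fun l => (volume (Yset S l)).toReal) (Icc 0 L) :=
    hanti.mono Icc_subset_Ici_self
  have hint : IntervalIntegrable (fun l => (volume (Yset S l)).toReal) volume 0 L := by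
    refine AntitoneOn.intervalIntegrable ?_
    rw [uIcc_of_le hL0]
    exact hanti'
  have hArea : (volume S).toReal = ∫ l in (0 : ℝ)..L, (volume (Yset S l)).toReal := by
    rw [intervalIntegral.integral_of_le hL0,
      integral_eq_lintegral_of_nonneg_ae (Filter.Eventually.of_forall fun l => ENNReal.toReal_nonneg)
        hint.1.aestronglyMeasurable, hV]
    congr 1
    refine lintegral_congr fun l => ?_
    rw [ENNReal.ofReal_toReal (hfin l)]
  refine ⟨L, hLpos, hLmem, hLmax, hWpos, ?_⟩
  intro t x ht htx hx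
  rw [hArea]
  refine hh (fun l => (volume (Yset S l)).toReal) L _ hL0 (wd_concave S hc hk L hL0 hLmem) hanti' ?_
    t x ht htx hx
  intro l hl
  exact hanti (mem_Ici.mpr le_rfl) (mem_Ici.mpr hl.1) hl.1

end Pool.Agent.MP49888f.CV
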