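import Pool.Agent.Lib.MP_49888f_co.CV.Defs

/-! Board CV, module Cover: the p-hexagon covering lemma.

PROOF. Put `w = f + P - Q`, `c = A + f + P`, `h = g f ≥ 0`, `p = g P - g (A+f) ≥ 0`, `q = g A - g Q ≥ 0`,
`H = g w = 2h + p + q > 0` (check: `g f + g P - g Q = h + (g A + h + p) - (g A - q)`).
Choose an integer `j` with `t := g x - g A - j H ∈ [0, H)` (`j = ⌊(g x - g A)/H⌋`) and put `X = x - j w`.
Four cases.
(1) `t ≤ h`. If `h = 0` put `s = 0`, else `s = t/h ∈ [0,1]`. `g (X - A - s f) = 0`, so `X = A + s f + b e`.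
  Put `i = ⌊b⌋`, `b - i = fract b ∈ [0,1)`. Then `X - i e = A + s f + fract b e` is a convex combination of
  `A, A+e, A+f, A+e+f` (weights `(1-s)(1-b'), (1-s) b', s(1-b'), s b'`), so it is in `C`.
(2) `h < t ≤ h+p` (so `p > 0`), `s = (t-h)/p ∈ [0,1]`: `X = A + f + s (P - A - f) + b e`, `b' = fract b`.
  If `b' ≤ 1 - s`: `X - ⌊b⌋ e` is a convex combination of `A+f, A+e+f, P` (weights `1-s-b', b', s`), in `C`.
  If `b' > 1 - s`: put `b'' = 1 - b' ∈ (0, s)` and `i = ⌊b⌋ + 1`: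
   `c + i e + j w - x = c - (X - i e) = A+f+P - (A + f + s(P-A-f) - b'' e) = A + f + (1-s)(P-A-f) + b'' e`,
   convex combination of `A+f, A+e+f, P` with weights `s - b'', b'', 1-s`, in `C`.
(3) `h+p < t ≤ 2h+p` (so `h > 0`), `s = (t-h-p)/h ∈ [0,1]`: `X = P + s f + b e` (`g (P + s f) - g A = h+p+s h`).
  `c - (X - i e) = A + (1-s) f + (i - b) e`; take `i = ⌈b⌉`, `i - b ∈ [0,1)`: in `C` as in (1).
(4) `2h+p < t < H` (so `q > 0`), `s = 1 - (t-2h-p)/q ∈ [0,1]`:
  `X = w + A + s (Q - A) + b e`  (height above `A`: `H - s q`).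
  If `b' = fract b ≤ 1 - s`: `X - ⌊b⌋ e - w = A + s(Q-A) + b' e` is a convex combination of `A, A+e, Q`
   (weights `1-s-b', b', s`): use `j+1` and `i = ⌊b⌋`.
  Else `b'' = 1 - b' ∈ (0, s)`, `i = ⌊b⌋ + 1`:
   `c + i e + j w - x = c - (X - i e) = (A+f+P) - (f+P-Q) - A - s(Q-A) + b'' e = A + (1-s)(Q-A) + b'' e`,
   convex combination of `A, A+e, Q` with weights `s - b'', b'', 1-s`, in `C`.
Suggestion: first prove two helper lemmas
 `para`: `0≤s≤1, 0≤b≤1 → A + s•f + b•e ∈ C` and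
 `tri`: for `A, A+e, P ∈ C`, `0≤s`, `0≤b`, `s+b≤1` → `A + s•(P-A) + b•e ∈ C`. -/

set_option autoImplicit false

namespace Pool.Agent.MP49888f.CV

open MeasureTheory Set

private theorem tri {C : Set E2} (hC : Convex ℝ C) {A e P : E2} (hA : A ∈ C) (hAe : A + e ∈ C)
    (hP : P ∈ C) {s b : ℝ} (hs : 0 ≤ s) (hb : 0 ≤ b) (hsb : s + b ≤ 1) :
    A + s • (P - A) + b • e ∈ C := by
  by_cases h1 : s = 1
  · subst h1
    have : b = 0 := by linarith
    subst this
    have e1 : A + (1 : ℝ) • (P - A) + (0 : ℝ) • e = P := by module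
    rw [e1]; exact hP
  · have hs1 : 0 < 1 - s := by
      have : s < 1 := lt_of_le_of_ne (by linarith) h1
      linarith
    have hq0 : 0 ≤ b / (1 - s) := div_nonneg hb hs1.le
    have hq1 : b / (1 - s) ≤ 1 := by rw [div_le_one hs1]; linarith
    have hq : (1 - s) * (b / (1 - s)) = b := by field_simp
    have hM : (1 - b / (1 - s)) • A + (b / (1 - s)) • (A + e) ∈ C :=
      hC hA hAe (by linarith) hq0 (by ring)
    have h2 := hC hM hP hs1.le hs (by ring)
    generalize b / (1 - s) = q at *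
    subst hq
    have e2 : A + s • (P - A) + ((1 - s) * q) • e =
        (1 - s) • ((1 - q) • A + q • (A + e)) + s • P := by module
    rw [e2]; exact h2

private theorem para {C : Set E2} (hC : Convex ℝ C) {A e f : E2} (hA : A ∈ C) (hAe : A + e ∈ C)
    (hAf : A + f ∈ C) (hAef : A + e + f ∈ C) {s b : ℝ} (hs : 0 ≤ s) (hs1 : s ≤ 1) (hb : 0 ≤ b)
    (hb1 : b ≤ 1) : A + s • f + b • e ∈ C := by
  have h1 : (1 - b) • A + b • (A + e) ∈ C := hC hA hAe (by linarith) hb (by ring)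
  have h2 : (1 - b) • (A + f) + b • (A + e + f) ∈ C := hC hAf hAef (by linarith) hb (by ring)
  have h3 := hC h1 h2 (a := 1 - s) (b := s) (by linarith) hs (by ring)
  have e1 : A + s • f + b • e =
      (1 - s) • ((1 - b) • A + b • (A + e)) + s • ((1 - b) • (A + f) + b • (A + e + f)) := by
    module
  rw [e1]; exact h3

private theorem ratio {t h : ℝ} (h0 : 0 ≤ t) (h1 : t ≤ h) : ∃ s : ℝ, 0 ≤ s ∧ s ≤ 1 ∧ s * h = t := by
  rcases eq_or_lt_of_le (h0.trans h1) with hh | hh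
  · exact ⟨0, le_refl _, zero_le_one, by linarith⟩
  · exact ⟨t / h, div_nonneg h0 hh.le, (div_le_one hh).2 h1, by field_simp⟩

private theorem intfr (b : ℝ) : ∃ (i : ℤ) (c : ℝ), 0 ≤ c ∧ c < 1 ∧ b = (i : ℝ) + c :=
  ⟨⌊b⌋, Int.fract b, Int.fract_nonneg b, Int.fract_lt_one b, (Int.floor_add_fract b).symm⟩

theorem cover (C : Set E2) (hC : Convex ℝ C) (g : E2 →ₗ[ℝ] ℝ) (A e f P Q : E2)
    (he : ∀ x, g x = 0 → ∃ b : ℝ, x = b • e) (hge : g e = 0)
    (hA : A ∈ C) (hAe : A + e ∈ C) (hAf : A + f ∈ C) (hAef : A + e + f ∈ C)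
    (hP : P ∈ C) (hQ : Q ∈ C)
    (h0 : 0 ≤ g f) (h1 : g (A + f) ≤ g P) (h2 : g Q ≤ g A) (hH : 0 < g (f + P - Q)) (x : E2) :
    ∃ i j : ℤ, x - (i : ℝ) • e - (j : ℝ) • (f + P - Q) ∈ C ∨
      (A + f + P) + (i : ℝ) • e + (j : ℝ) • (f + P - Q) - x ∈ C := by
  obtain ⟨j, t, ht0, ht1, htj⟩ : ∃ (j : ℤ) (t : ℝ), 0 ≤ t ∧ t < g (f + P - Q) ∧
      g x = g A + (j : ℝ) * g (f + P - Q) + t := by
    obtain ⟨j, c, hc0, hc1, hc⟩ := intfr ((g x - g A) / g (f + P - Q))
    refine ⟨j, c * g (f + P - Q), mul_nonneg hc0 hH.le, by nlinarith, ?_⟩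
    have h3 : g x - g A = ((j : ℝ) + c) * g (f + P - Q) := by
      rw [← hc]; field_simp
    linarith
  have hw : g (f + P - Q) = g f + g P - g Q := by simp
  have hAf' : g (A + f) = g A + g f := by simp
  rw [hAf'] at h1
  by_cases c1 : t ≤ g f
  · -- case 1
    obtain ⟨s, hs0, hs1, hs⟩ := ratio ht0 c1
    obtain ⟨b, hb⟩ := he (x - (j : ℝ) • (f + P - Q) - A - s • f) (by
      simp only [map_sub, map_add, map_smul, smul_eq_mul] at *
      linarith)
    obtain ⟨i, c, hc0, hc1, rfl⟩ := intfr b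
    refine ⟨i, j, Or.inl ?_⟩
    have hx : x = (j : ℝ) • (f + P - Q) + A + s • f + ((i : ℝ) + c) • e := by
      rw [← hb]; module
    have h3 := para hC hA hAe hAf hAef hs0 hs1 hc0 hc1.le
    have e1 : x - (i : ℝ) • e - (j : ℝ) • (f + P - Q) = A + s • f + c • e := by
      rw [hx]; module
    rw [e1]; exact h3
  push Not at c1
  by_cases c2 : t ≤ g f + (g P - (g A + g f))
  · -- case 2
    obtain ⟨s, hs0, hs1, hs⟩ := ratio (t := t - g f) (h := g P - (g A + g f)) (by linarith)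
      (by linarith)
    obtain ⟨b, hb⟩ := he (x - (j : ℝ) • (f + P - Q) - (A + f) - s • (P - (A + f))) (by
      simp only [map_sub, map_add, map_smul, smul_eq_mul] at *
      linarith)
    obtain ⟨i, c, hc0, hc1, rfl⟩ := intfr b
    have hx : x = (j : ℝ) • (f + P - Q) + (A + f) + s • (P - (A + f)) + ((i : ℝ) + c) • e := by
      rw [← hb]; module
    have hAfe : A + f + e ∈ C := by
      have : A + f + e = A + e + f := by module
      rw [this]; exact hAef
    by_cases c3 : s + c ≤ 1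
    · refine ⟨i, j, Or.inl ?_⟩
      have h3 := tri hC hAf hAfe hP hs0 hc0 c3
      have e1 : x - (i : ℝ) • e - (j : ℝ) • (f + P - Q) = A + f + s • (P - (A + f)) + c • e := by
        rw [hx]; module
      rw [e1]; exact h3
    · push Not at c3
      refine ⟨i + 1, j, Or.inr ?_⟩
      have h3 := tri hC hAf hAfe hP (s := 1 - s) (b := 1 - c) (by linarith) (by linarith)
        (by linarith)
      have e1 : (A + f + P) + ((i + 1 : ℤ) : ℝ) • e + (j : ℝ) • (f + P - Q) - x =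
          A + f + (1 - s) • (P - (A + f)) + (1 - c) • e := by
        rw [hx]; push_cast; module
      rw [e1]; exact h3
  push Not at c2
  by_cases c4 : t ≤ 2 * g f + (g P - (g A + g f))
  · -- case 3
    obtain ⟨s, hs0, hs1, hs⟩ := ratio (t := t - g f - (g P - (g A + g f))) (h := g f)
      (by linarith) (by linarith)
    obtain ⟨b, hb⟩ := he (x - (j : ℝ) • (f + P - Q) - P - s • f) (by
      simp only [map_sub, map_add, map_smul, smul_eq_mul] at *
      linarith)
    obtain ⟨i, c, hc0, hc1, hbc⟩ := intfr (-b)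
    refine ⟨-i, j, Or.inr ?_⟩
    have hb2 : b = -((i : ℝ) + c) := by linarith
    subst hb2
    have hx : x = (j : ℝ) • (f + P - Q) + P + s • f + (-((i : ℝ) + c)) • e := by
      rw [← hb]; module
    have h3 := para hC hA hAe hAf hAef (s := 1 - s) (by linarith) (by linarith) hc0 hc1.le
    have e1 : (A + f + P) + ((-i : ℤ) : ℝ) • e + (j : ℝ) • (f + P - Q) - x =
        A + (1 - s) • f + c • e := by
      rw [hx]; push_cast; module
    rw [e1]; exact h3
  push Not at c4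
  -- case 4
  obtain ⟨s, hs0, hs1, hs⟩ := ratio (t := g (f + P - Q) - t) (h := g A - g Q) (by linarith)
    (by linarith)
  obtain ⟨b, hb⟩ := he (x - (j : ℝ) • (f + P - Q) - (f + P - Q) - A - s • (Q - A)) (by
    simp only [map_sub, map_add, map_smul, smul_eq_mul] at *
    linarith)
  obtain ⟨i, c, hc0, hc1, rfl⟩ := intfr b
  have hx : x = (j : ℝ) • (f + P - Q) + (f + P - Q) + A + s • (Q - A) + ((i : ℝ) + c) • e := by
    rw [← hb]; module
  by_cases c5 : s + c ≤ 1
  · refine ⟨i, j + 1, Or.inl ?_⟩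
    have h3 := tri hC hA hAe hQ hs0 hc0 c5
    have e1 : x - (i : ℝ) • e - ((j + 1 : ℤ) : ℝ) • (f + P - Q) = A + s • (Q - A) + c • e := by
      rw [hx]; push_cast; module
    rw [e1]; exact h3
  · push Not at c5
    refine ⟨i + 1, j, Or.inr ?_⟩
    have h3 := tri hC hA hAe hQ (s := 1 - s) (b := 1 - c) (by linarith) (by linarith)
      (by linarith)
    have e1 : (A + f + P) + ((i + 1 : ℤ) : ℝ) • e + (j : ℝ) • (f + P - Q) - x =
        A + (1 - s) • (Q - A) + (1 - c) • e := by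
      rw [hx]; push_cast; module
    rw [e1]; exact h3

end Pool.Agent.MP49888f.CV
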