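import Mathlib

/-! Board CV (MP_49888f_co): definitions. -/

set_option autoImplicit false

namespace Pool.Agent.MP49888f.CV

open MeasureTheory Set
open scoped Pointwise

/-- the plane -/
abbrev E2 : Type := EuclideanSpace ℝ (Fin 2)

/-- cross product (signed area of the parallelogram) -/
def cr (u v : E2) : ℝ := u 0 * v 1 - u 1 * v 0

/-- For every `ε > 0` the plane is covered by isometric copies of `C` with lower density
(copies inside growing discs around the origin) at most `θ + ε`. -/
def CovLE (C : Set E2) (θ : ℝ) : Prop :=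
  ∀ ε : ℝ, 0 < ε →
    ∃ f : ℕ → (E2 ≃ᵢ E2),
      (⋃ i, (f i) '' C) = Set.univ ∧
      ∀ R : ℝ, ∃ r : ℝ, R ≤ r ∧
        (∑' i : ℕ, Set.indicator {j : ℕ | (f j) '' C ⊆ Metric.ball (0 : E2) r}
            (fun _ : ℕ => MeasureTheory.volume C) i)
          ≤ ENNReal.ofReal (θ + ε) * MeasureTheory.volume (Metric.ball (0 : E2) r)

/-- the set of heights `y` at which a planar set `S` contains two points at horizontal
distance exactly `l` (the second to the right) -/
def Yset (S : Set (ℝ × ℝ)) (l : ℝ) : Set ℝ := {y | ∃ x : ℝ, (x, y) ∈ S ∧ (x + l, y) ∈ S}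

/-- the point with coordinates `p` in the frame `u, w` -/
def fr (u w : E2) (p : ℝ × ℝ) : E2 := p.1 • u + p.2 • w

/-- the coefficient `2(x-t)/(2+t+x) + 2(1-x)/(1+x)` -/
noncomputable def Cc (t x : ℝ) : ℝ := 2 * (x - t) / (2 + t + x) + 2 * (1 - x) / (1 + x)

theorem cr_add_left (u v w : E2) : cr (u + v) w = cr u w + cr v w := by simp [cr]; ring
theorem cr_add_right (u v w : E2) : cr u (v + w) = cr u v + cr u w := by simp [cr]; ring
theorem cr_sub_left (u v w : E2) : cr (u - v) w = cr u w - cr v w := by simp [cr]; ring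
theorem cr_sub_right (u v w : E2) : cr u (v - w) = cr u v - cr u w := by simp [cr]; ring
theorem cr_smul_left (a : ℝ) (u w : E2) : cr (a • u) w = a * cr u w := by simp [cr]; ring
theorem cr_smul_right (a : ℝ) (u w : E2) : cr u (a • w) = a * cr u w := by simp [cr]; ring
theorem cr_self (u : E2) : cr u u = 0 := by simp [cr]; ring
theorem cr_neg_left (u w : E2) : cr (-u) w = - cr u w := by simp [cr]; ring
theorem cr_neg_right (u w : E2) : cr u (-w) = - cr u w := by simp [cr]; ring
theorem cr_comm (u w : E2) : cr u w = - cr w u := by simp [cr]; ring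
theorem cr_zero_left (w : E2) : cr 0 w = 0 := by simp [cr]
theorem cr_zero_right (w : E2) : cr w 0 = 0 := by simp [cr]

theorem CovLE.mono {C : Set E2} {a b : ℝ} (h : CovLE C a) (hab : a ≤ b) : CovLE C b := by
  intro ε hε
  obtain ⟨f, hf, hr⟩ := h ε hε
  refine ⟨f, hf, fun R => ?_⟩
  obtain ⟨r, hRr, hs⟩ := hr R
  refine ⟨r, hRr, hs.trans ?_⟩
  gcongr

end Pool.Agent.MP49888f.CV
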