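import Pool.Agent.Lib.MP_49888f_co.CV.Defs

/-! Board CV, module Frame: area in the frame `u, w` (`fr u w p = p.1 • u + p.2 • w`).

PROOF. The linear map `T : ℝ × ℝ → E2, p ↦ fr u w p` is the composition of the measure preserving
identification `ℝ × ℝ ≃ᵐ (Fin 2 → ℝ) ≃ᵐ EuclideanSpace ℝ (Fin 2)` (`MeasurableEquiv.finTwoArrow`,
`volume_preserving_finTwoArrow`, `EuclideanSpace.volume_preserving_symm_measurableEquiv_toLp` or its
current name; `PiLp.volume_preserving_toLp`) and the linear endomorphism of `E2`
with matrix columns `u, w`, whose determinant is `cr u w`; use `MeasureTheory.Measure.addHaar_image_linearMap`.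
Alternatively work on `Fin 2 → ℝ` with `Real.volume_preserving...`/`Matrix.toLin'` and `addHaar_image_linearMap`.
`fr_surj`: `x = cr x w • u + cr u x • w` when `cr u w = 1` (check the two coordinates).
`volume_fr_preimage`: `fr u w '' (fr u w ⁻¹' S) = S` by surjectivity, then `volume_fr_image`. -/

set_option autoImplicit false

namespace Pool.Agent.MP49888f.CV

open MeasureTheory Set

theorem continuous_fr (u w : E2) : Continuous (fr u w) := by
  unfold fr; fun_prop

theorem fr_coord (u w : E2) (h : cr u w = 1) (x : E2) : fr u w (cr x w, cr u x) = x := by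
  unfold fr
  unfold cr at *
  ext i
  fin_cases i
  · simp
    linear_combination (x 0) * h
  · simp
    linear_combination (x 1) * h

theorem fr_inj (u w : E2) (h : cr u w ≠ 0) : Function.Injective (fr u w) := by
  intro p q hpq
  have h1 : cr (fr u w p) w = cr (fr u w q) w := by rw [hpq]
  have h2 : cr u (fr u w p) = cr u (fr u w q) := by rw [hpq]
  have e1 : ∀ p : ℝ × ℝ, cr (fr u w p) w = p.1 * cr u w := by
    intro p
    unfold fr
    rw [cr_add_left, cr_smul_left, cr_smul_left, cr_self]
    ring
  have e2 : ∀ p : ℝ × ℝ, cr u (fr u w p) = p.2 * cr u w := by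
    intro p
    unfold fr
    rw [cr_add_right, cr_smul_right, cr_smul_right, cr_self]
    ring
  rw [e1, e1] at h1
  rw [e2, e2] at h2
  exact Prod.ext (mul_right_cancel₀ h h1) (mul_right_cancel₀ h h2)

/-- the identification of `ℝ × ℝ` with the plane -/
private noncomputable def Frame_eqv : (ℝ × ℝ) ≃ᵐ E2 :=
  (MeasurableEquiv.finTwoArrow (α := ℝ)).symm.trans (MeasurableEquiv.toLp 2 (Fin 2 → ℝ))

private theorem Frame_eqv_vol (S : Set (ℝ × ℝ)) : volume (Frame_eqv '' S) = volume S := by
  have hmp : MeasurePreserving Frame_eqv.symm (volume : Measure E2) (volume : Measure (ℝ × ℝ)) := by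
    exact (volume_preserving_finTwoArrow ℝ).comp
      (EuclideanSpace.volume_preserving_symm_measurableEquiv_toLp (Fin 2))
  have h := hmp.measure_preimage_equiv S
  rwa [← MeasurableEquiv.image_eq_preimage_symm] at h

private theorem Frame_eqv_apply (p : ℝ × ℝ) : (Frame_eqv p) 0 = p.1 ∧ (Frame_eqv p) 1 = p.2 := by
  constructor <;> rfl

/-- the linear map with columns `u`, `w` -/
private noncomputable def Frame_lin (u w : E2) : E2 →ₗ[ℝ] E2 where
  toFun x := x 0 • u + x 1 • w
  map_add' x y := by
    simp only [PiLp.add_apply, add_smul]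
    abel
  map_smul' c x := by
    simp only [PiLp.smul_apply, smul_eq_mul, RingHom.id_apply, smul_add, mul_smul]

private theorem Frame_det (u w : E2) : LinearMap.det (Frame_lin u w) = cr u w := by
  rw [← LinearMap.det_toMatrix (EuclideanSpace.basisFun (Fin 2) ℝ).toBasis, Matrix.det_fin_two]
  simp only [LinearMap.toMatrix_apply]
  simp [Frame_lin, cr]
  ring

theorem volume_fr_image (u w : E2) (S : Set (ℝ × ℝ)) :
    volume (fr u w '' S) = ENNReal.ofReal |cr u w| * volume S := by
  have h1 : fr u w '' S = Frame_lin u w '' (Frame_eqv '' S) := by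
    rw [Set.image_image]
    refine Set.image_congr fun p _ => ?_
    show p.1 • u + p.2 • w = (Frame_eqv p) 0 • u + (Frame_eqv p) 1 • w
    rw [(Frame_eqv_apply p).1, (Frame_eqv_apply p).2]
  rw [h1, Measure.addHaar_image_linearMap, Frame_det, Frame_eqv_vol]

theorem volume_fr_preimage (u w : E2) (h : cr u w = 1) (S : Set E2) :
    volume (fr u w ⁻¹' S) = volume S := by
  have h1 := volume_fr_image u w (fr u w ⁻¹' S)
  have hs : Function.Surjective (fr u w) := fun x => ⟨_, fr_coord u w h x⟩
  rw [Set.image_preimage_eq S hs, h, abs_one, ENNReal.ofReal_one, one_mul] at h1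
  exact h1.symm

theorem isCompact_fr_preimage (u w : E2) (h : cr u w = 1) (S : Set E2) (hS : IsCompact S) :
    IsCompact (fr u w ⁻¹' S) := by
  have hc : Continuous (fun x : E2 => ((cr x w, cr u x) : ℝ × ℝ)) := by
    unfold cr
    fun_prop
  have h1 : fr u w ⁻¹' S = (fun x : E2 => ((cr x w, cr u x) : ℝ × ℝ)) '' S := by
    ext p
    constructor
    · intro hp
      refine ⟨fr u w p, hp, ?_⟩
      exact fr_inj u w (by rw [h]; norm_num) (fr_coord u w h _)
    · rintro ⟨x, hx, rfl⟩
      show fr u w (cr x w, cr u x) ∈ S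
      rwa [fr_coord u w h]
  rw [h1]
  exact hS.image hc

theorem convex_fr_preimage (u w : E2) (S : Set E2) (hS : Convex ℝ S) :
    Convex ℝ (fr u w ⁻¹' S) := by
  intro p hp q hq a b ha hb hab
  show fr u w (a • p + b • q) ∈ S
  have h1 : fr u w (a • p + b • q) = a • fr u w p + b • fr u w q := by
    unfold fr
    simp only [Prod.fst_add, Prod.snd_add, Prod.smul_fst, Prod.smul_snd, smul_eq_mul, smul_add,
      add_smul, mul_smul]
    abel
  rw [h1]
  exact hS hp hq ha hb hab

end Pool.Agent.MP49888f.CV
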