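import Pool.Agent.Lib.MP_49888f_co.CV.Yset

/-! Board CV, module Slice: `volume S = ∫⁻ l in Ioi 0, volume (Yset S l)`.

PROOF. Let `Z = {p : ℝ × ℝ | 0 < p.1 ∧ p.2 ∈ Yset S p.1}` (p.1 = l, p.2 = y). It is measurable: the set
`{(l,y) | y ∈ Yset S l}` is compact, namely the image of the compact set `{q ∈ S ×ˢ S | q.1.2 = q.2.2}` under the
continuous map `q ↦ (q.2.1 - q.1.1, q.1.2)`. Tonelli (`Measure.prod_apply` and `Measure.prod_apply_symm`):
`∫⁻ l in Ioi 0, volume (Yset S l) = volume Z = ∫⁻ y, volume {l | 0 < l ∧ y ∈ Yset S l}`.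
`volume S = ∫⁻ y, volume {x | (x,y) ∈ S}` (`Measure.prod_apply_symm`). For every `y` the slice
`X = {x | (x,y) ∈ S}` is compact and convex; if it is empty both numbers are 0; else `X = Icc a b`
(`compact_convex_eq_Icc`) and `{l | 0 < l ∧ y ∈ Yset S l} = Ioc 0 (b - a)`
(`y ∈ Yset S l ↔ ∃ x, x ∈ X ∧ x + l ∈ X`), both have measure `ofReal (b - a)`. -/

set_option autoImplicit false

namespace Pool.Agent.MP49888f.CV

open MeasureTheory Set

private theorem measurable_Z (S : Set (ℝ × ℝ)) (hk : IsCompact S) :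
    MeasurableSet {p : ℝ × ℝ | 0 < p.1 ∧ p.2 ∈ Yset S p.1} := by
  have hK : IsCompact ((S ×ˢ S) ∩ {q : (ℝ × ℝ) × (ℝ × ℝ) | q.1.2 = q.2.2}) :=
    (hk.prod hk).inter_right
      (isClosed_eq (continuous_snd.comp continuous_fst) (continuous_snd.comp continuous_snd))
  have hg : Continuous (fun q : (ℝ × ℝ) × (ℝ × ℝ) => (q.2.1 - q.1.1, q.1.2)) := by fun_prop
  have himg := hK.image hg
  have hcl : MeasurableSet
      ((fun q : (ℝ × ℝ) × (ℝ × ℝ) => (q.2.1 - q.1.1, q.1.2)) ''
        ((S ×ˢ S) ∩ {q : (ℝ × ℝ) × (ℝ × ℝ) | q.1.2 = q.2.2})) := himg.isClosed.measurableSet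
  have hpos : MeasurableSet {p : ℝ × ℝ | 0 < p.1} :=
    (isOpen_lt continuous_const continuous_fst).measurableSet
  have heq : {p : ℝ × ℝ | 0 < p.1 ∧ p.2 ∈ Yset S p.1} = {p : ℝ × ℝ | 0 < p.1} ∩
      ((fun q : (ℝ × ℝ) × (ℝ × ℝ) => (q.2.1 - q.1.1, q.1.2)) ''
        ((S ×ˢ S) ∩ {q : (ℝ × ℝ) × (ℝ × ℝ) | q.1.2 = q.2.2})) := by
    ext ⟨l, y⟩
    constructor
    · rintro ⟨h0, x, hx1, hx2⟩
      refine ⟨h0, ((x, y), (x + l, y)), ⟨⟨hx1, hx2⟩, rfl⟩, ?_⟩
      simp
    · rintro ⟨h0, ⟨⟨x1, y1⟩, ⟨x2, y2⟩⟩, ⟨⟨h1, h2⟩, h3⟩, h4⟩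
      simp only [Prod.mk.injEq] at h4
      have h3' : y1 = y2 := h3
      obtain ⟨h5, h6⟩ := h4
      refine ⟨h0, x1, ?_, ?_⟩
      · show (x1, y) ∈ S
        rw [← h6]
        exact h1
      · show (x1 + l, y) ∈ S
        rw [← h5, ← h6, h3', add_sub_cancel]
        exact h2
  rw [heq]
  exact hpos.inter hcl

private theorem slice_eq (S : Set (ℝ × ℝ)) (hc : Convex ℝ S) (hk : IsCompact S) (y : ℝ) :
    volume ((fun x : ℝ => (x, y)) ⁻¹' S) = volume {l : ℝ | 0 < l ∧ y ∈ Yset S l} := by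
  set X : Set ℝ := (fun x : ℝ => (x, y)) ⁻¹' S with hX
  have hXc : IsCompact X := by
    have h1 : X = Prod.fst '' (S ∩ {p : ℝ × ℝ | p.2 = y}) := by
      ext x
      constructor
      · intro hx
        exact ⟨(x, y), ⟨hx, rfl⟩, rfl⟩
      · rintro ⟨⟨x', y'⟩, ⟨h1, h2⟩, rfl⟩
        have h2' : y' = y := h2
        subst h2'
        exact h1
    rw [h1]
    exact (hk.inter_right (isClosed_eq continuous_snd continuous_const)).image continuous_fst
  have hXv : Convex ℝ X := by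
    intro x1 h1 x2 h2 s t hs ht hst
    have h3 := hc h1 h2 hs ht hst
    have h4 : s • ((x1, y) : ℝ × ℝ) + t • ((x2, y) : ℝ × ℝ) = (s • x1 + t • x2, y) := by
      ext
      · simp
      · simp only [Prod.snd_add, Prod.smul_snd, smul_eq_mul]
        rw [← add_mul, hst, one_mul]
    rw [h4] at h3
    exact h3
  rcases X.eq_empty_or_nonempty with hE | hE
  · have h1 : {l : ℝ | 0 < l ∧ y ∈ Yset S l} = ∅ := by
      ext l
      constructor
      · rintro ⟨_, x, hx, _⟩
        have : x ∈ X := hx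
        rw [hE] at this
        exact this
      · intro h
        exact absurd h (Set.notMem_empty _)
    rw [h1, hE]
  · obtain ⟨hXI⟩ : Nonempty (X = Icc (sInf X) (sSup X)) := ⟨compact_convex_eq_Icc X hXc hXv hE⟩
    generalize sInf X = a at hXI
    generalize sSup X = b at hXI
    have hab : a ≤ b := by
      rw [hXI] at hE
      exact nonempty_Icc.1 hE
    have h1 : {l : ℝ | 0 < l ∧ y ∈ Yset S l} = Ioc 0 (b - a) := by
      ext l
      constructor
      · rintro ⟨h0, x, hx, hxl⟩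
        have h2 : x ∈ X := hx
        have h3 : x + l ∈ X := hxl
        rw [hXI] at h2 h3
        exact ⟨h0, by linarith [h2.1, h3.2]⟩
      · rintro ⟨h0, h4⟩
        refine ⟨h0, a, ?_, ?_⟩
        · show a ∈ X
          rw [hXI]
          exact ⟨le_rfl, hab⟩
        · show a + l ∈ X
          rw [hXI]
          exact ⟨by linarith, by linarith⟩
    rw [h1, hXI, Real.volume_Icc, Real.volume_Ioc, sub_zero]

theorem volume_eq_lintegral_Yset (S : Set (ℝ × ℝ)) (hc : Convex ℝ S) (hk : IsCompact S) :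
    volume S = ∫⁻ l in Ioi (0 : ℝ), volume (Yset S l) := by
  have hZ := measurable_Z S hk
  have hS : MeasurableSet S := hk.isClosed.measurableSet
  have h1 : ∫⁻ l in Ioi (0 : ℝ), volume (Yset S l) =
      (volume : Measure (ℝ × ℝ)) {p : ℝ × ℝ | 0 < p.1 ∧ p.2 ∈ Yset S p.1} := by
    rw [Measure.volume_eq_prod, Measure.prod_apply hZ, ← lintegral_indicator measurableSet_Ioi]
    refine lintegral_congr fun l => ?_
    by_cases hl : 0 < l
    · rw [indicator_of_mem (show l ∈ Ioi (0 : ℝ) from hl)]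
      congr 1
      ext y
      constructor
      · intro hy
        exact ⟨hl, hy⟩
      · intro hy
        exact hy.2
    · rw [indicator_of_notMem (show l ∉ Ioi (0 : ℝ) from hl)]
      have : Prod.mk l ⁻¹' {p : ℝ × ℝ | 0 < p.1 ∧ p.2 ∈ Yset S p.1} = ∅ := by
        ext y
        constructor
        · intro hy
          exact absurd hy.1 hl
        · intro h
          exact absurd h (Set.notMem_empty _)
      rw [this, measure_empty]
  rw [h1, Measure.volume_eq_prod, Measure.prod_apply_symm hZ, Measure.prod_apply_symm hS]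
  refine lintegral_congr fun y => ?_
  exact slice_eq S hc hk y

end Pool.Agent.MP49888f.CV
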